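import Mathlib

set_option autoImplicit false

open scoped Topology
open Filter

noncomputable section

namespace Pool.Agent.Helper877.SB

variable {B : Type*} [NormedRing B] [NormedAlgebra ℂ B] [CompleteSpace B]

/-- Gelfand formula, in the form used below. -/
theorem eventually_pow_lt [Nontrivial B] (a : B) {M ρ : ℝ} (hM : 0 ≤ M) (hρ : M < ρ)
    (h : ∀ μ ∈ spectrum ℂ a, ‖μ‖ ≤ M) : ∃ k₀ : ℕ, ∀ k ≥ k₀, ‖a ^ k‖ < ρ ^ k := by
  have hρ0 : 0 < ρ := hM.trans_lt hρ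
  have h1 : spectralRadius ℂ a ≤ ENNReal.ofReal M := by
    unfold spectralRadius
    apply iSup₂_le
    intro μ hμ
    exact ENNReal.coe_le_coe.2 (NNReal.le_toNNReal_of_coe_le (h μ hμ))
  have h2 : spectralRadius ℂ a < ENNReal.ofReal ρ :=
    h1.trans_lt ((ENNReal.ofReal_lt_ofReal_iff hρ0).2 hρ)
  have h3 := (spectrum.pow_norm_pow_one_div_tendsto_nhds_spectralRadius a).eventually_lt_const h2
  obtain ⟨k₀, hk₀⟩ := eventually_atTop.1 h3
  refine ⟨max k₀ 1, fun k hk => ?_⟩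
  have hk1 : k₀ ≤ k := (le_max_left _ _).trans hk
  have hk2 : 1 ≤ k := (le_max_right _ _).trans hk
  have h4 := hk₀ k hk1
  rw [ENNReal.ofReal_lt_ofReal_iff hρ0] at h4
  have h5 : (‖a ^ k‖ ^ (1 / (k : ℝ))) ^ (k : ℝ) < ρ ^ (k : ℝ) :=
    Real.rpow_lt_rpow (by positivity) h4 (by positivity)
  rw [← Real.rpow_mul (norm_nonneg _), one_div, inv_mul_cancel₀ (by positivity), Real.rpow_one,
    Real.rpow_natCast] at h5
  exact h5

/-- uniform version on circles -/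
theorem exists_uniform [Nontrivial B] (f : ℂ → B) (hf : Continuous f) {M ρ : ℝ} (hM : 0 ≤ M)
    (hρ : M < ρ) (h : ∀ l : ℂ, ∀ μ ∈ spectrum ℂ (f l), ‖μ‖ ≤ M) (R : ℝ) :
    ∃ k : ℕ, ∀ l : ℂ, ‖l‖ = R → ‖(f l) ^ 2 ^ k‖ < ρ ^ 2 ^ k := by
  have hρ0 : 0 < ρ := hM.trans_lt hρ
  let U : ℕ → Set ℂ := fun k => {l | ‖(f l) ^ 2 ^ k‖ < ρ ^ 2 ^ k}
  have hUo : ∀ k, IsOpen (U k) := fun k => isOpen_lt (by fun_prop) continuous_const
  have hUm : Monotone U := by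
    apply monotone_nat_of_le_succ
    intro k l hl
    have hl' : ‖(f l) ^ 2 ^ k‖ < ρ ^ 2 ^ k := hl
    show ‖(f l) ^ 2 ^ (k + 1)‖ < ρ ^ 2 ^ (k + 1)
    rw [pow_succ, pow_mul, pow_mul]
    refine (norm_pow_le' _ (by norm_num)).trans_lt ?_
    exact pow_lt_pow_left₀ hl' (norm_nonneg _) (by norm_num)
  have hcov : Metric.sphere (0 : ℂ) R ⊆ ⋃ k, U k := by
    intro l _
    obtain ⟨k₀, hk₀⟩ := eventually_pow_lt (f l) hM hρ (h l)
    rw [Set.mem_iUnion]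
    exact ⟨k₀, hk₀ _ (Nat.lt_two_pow_self).le⟩
  obtain ⟨k, hk⟩ := (isCompact_sphere (0 : ℂ) R).elim_directed_cover U hUo hcov hUm.directed_le
  exact ⟨k, fun l hl => hk (by simpa using hl)⟩

/-- A bounded entire family: the spectral radius is everywhere at most its value at `0`. -/
theorem liou (f : ℂ → B) (hf : Differentiable ℂ f) {C ρ : ℝ}
    (hC : ∀ l : ℂ, ∀ μ ∈ spectrum ℂ (f l), ‖μ‖ ≤ C)
    (h0 : ∀ μ ∈ spectrum ℂ (f 0), ‖μ‖ ≤ ρ) (l : ℂ) : ∀ μ ∈ spectrum ℂ (f l), ‖μ‖ ≤ ρ := by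
  intro μ hμ
  rcases subsingleton_or_nontrivial B with hB | hB
  · simp at hμ
  by_contra hlt
  push Not at hlt
  have hl0 : l ≠ 0 := by
    rintro rfl
    exact absurd (h0 μ hμ) (not_le.2 hlt)
  have hl : 0 < ‖l‖ := norm_pos_iff.2 hl0
  have hρ0 : 0 ≤ ρ := by
    obtain ⟨ν, hν⟩ := spectrum.nonempty (f 0)
    exact (norm_nonneg ν).trans (h0 ν hν)
  obtain ⟨ρ1, h1, h2⟩ := exists_between hlt
  have hρ1 : 0 < ρ1 := hρ0.trans_lt h1
  have hμ0 : 0 < ‖μ‖ := hρ1.trans h2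
  -- the inner circle
  obtain ⟨k₀, hk₀⟩ := eventually_pow_lt (f 0) hρ0 h1 h0
  obtain ⟨j₀, hj₀⟩ : ∃ j₀ : ℕ, k₀ ≤ 2 ^ j₀ := ⟨k₀, Nat.lt_two_pow_self.le⟩
  have hin : ∀ᶠ z in 𝓝 (0 : ℂ), ‖(f z) ^ 2 ^ j₀‖ < ρ1 ^ 2 ^ j₀ := by
    have hc : Continuous fun z => ‖(f z) ^ 2 ^ j₀‖ := (hf.continuous.pow _).norm
    exact hc.continuousAt.eventually_lt continuousAt_const (hk₀ _ hj₀)
  obtain ⟨δ', hδ'0, hδ'⟩ := Metric.eventually_nhds_iff.1 hin
  obtain ⟨δ, hδ0, hδ⟩ := exists_between (lt_min hδ'0 hl)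
  have hδ1 : δ < δ' := hδ.trans_le (min_le_left _ _)
  have hδ2 : δ < ‖l‖ := hδ.trans_le (min_le_right _ _)
  have hinner : ∀ z : ℂ, ‖z‖ = δ → ∀ t : ℕ, 1 ≤ t → ‖(f z) ^ (2 ^ j₀ * t)‖ ≤ ρ1 ^ (2 ^ j₀ * t) := by
    intro z hz t ht
    rw [pow_mul, pow_mul]
    refine (norm_pow_le' _ (by omega)).trans ?_
    apply pow_le_pow_left₀ (norm_nonneg _)
    exact (hδ' (by rw [dist_zero_right, hz]; exact hδ1)).le
  -- the exponent `q`
  have hr : 1 < ‖μ‖ / ρ1 := (one_lt_div hρ1).2 h2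
  obtain ⟨q, hq⟩ := pow_unbounded_of_one_lt (‖l‖ / δ) hr
  have hq' : ρ1 ^ q / δ < ‖μ‖ ^ q / ‖l‖ := by
    rw [div_pow, div_lt_div_iff₀ hδ0 (by positivity)] at hq
    rw [div_lt_div_iff₀ hδ0 hl]
    linarith
  -- the outer circle
  set K : ℝ := max C ρ1 + 1 with hK
  have hKpos : 0 < K := by
    have := le_max_right C ρ1
    linarith
  have hCK : max C 0 < K := by
    apply max_lt
    · have := le_max_left C ρ1
      linarith
    · exact hKpos
  set Y : ℝ := ρ1 ^ q / δ with hY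
  have hY0 : 0 < Y := by positivity
  set R : ℝ := max (‖l‖ + 1) (K ^ q / Y) with hR
  have hR1 : ‖l‖ < R := by
    have := le_max_left (‖l‖ + 1) (K ^ q / Y)
    linarith
  have hR0 : 0 < R := hl.trans hR1
  have hR2 : K ^ q / R ≤ Y := by
    rw [div_le_iff₀ hR0]
    have := le_max_right (‖l‖ + 1) (K ^ q / Y)
    calc K ^ q = Y * (K ^ q / Y) := by field_simp
      _ ≤ Y * R := by gcongr
  obtain ⟨j₁, hj₁⟩ := exists_uniform f hf.continuous (le_max_right C 0) hCK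
    (fun z ν hν => (hC z ν hν).trans (le_max_left _ _)) R
  have houter : ∀ z : ℂ, ‖z‖ = R → ∀ t : ℕ, 1 ≤ t → ‖(f z) ^ (2 ^ j₁ * t)‖ ≤ K ^ (2 ^ j₁ * t) := by
    intro z hz t ht
    rw [pow_mul, pow_mul]
    refine (norm_pow_le' _ (by omega)).trans ?_
    exact pow_le_pow_left₀ (norm_nonneg _) (hj₁ z hz).le _
  -- the contradiction
  have key : ∀ t : ℕ, 1 ≤ t → (‖μ‖ ^ q / ‖l‖) ^ (2 ^ (j₀ + j₁) * t) ≤
      ‖(1 : B)‖ * Y ^ (2 ^ (j₀ + j₁) * t) := by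
    intro t ht
    set m : ℕ := 2 ^ (j₀ + j₁) * t with hm
    have hq1 : 1 ≤ q := by
      by_contra h
      have hq0 : q = 0 := by omega
      rw [hq0, pow_zero, div_lt_one hδ0] at hq
      linarith
    have hm0 : 1 ≤ m := by
      have : 1 ≤ 2 ^ (j₀ + j₁) := Nat.one_le_two_pow
      nlinarith
    set n : ℕ := q * m with hn
    have hn0 : n ≠ 0 := by positivity
    have e0 : n = 2 ^ j₀ * (2 ^ j₁ * t * q) := by rw [hn, hm, pow_add]; ring
    have e1 : n = 2 ^ j₁ * (2 ^ j₀ * t * q) := by rw [hn, hm, pow_add]; ring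
    have n0 : 1 ≤ 2 ^ j₁ * t * q := Nat.one_le_iff_ne_zero.2 (by positivity)
    have n1 : 1 ≤ 2 ^ j₀ * t * q := Nat.one_le_iff_ne_zero.2 (by positivity)
    let g : ℂ → B := fun z => (z ^ m)⁻¹ • (f z) ^ n
    let U : Set ℂ := {z | δ < ‖z‖ ∧ ‖z‖ < R}
    have hcl : closure U ⊆ {z | δ ≤ ‖z‖ ∧ ‖z‖ ≤ R} := by
      apply closure_minimal
      · rintro z ⟨h3, h4⟩
        exact ⟨h3.le, h4.le⟩
      · exact (isClosed_le continuous_const continuous_norm).inter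
          (isClosed_le continuous_norm continuous_const)
    have hUo : IsOpen U := (isOpen_lt continuous_const continuous_norm).inter
      (isOpen_lt continuous_norm continuous_const)
    have hUb : Bornology.IsBounded U := by
      apply (Metric.isBounded_closedBall (x := (0 : ℂ)) (r := R)).subset
      rintro z ⟨_, h4⟩
      rw [mem_closedBall_zero_iff]
      exact h4.le
    have hdiff : DiffContOnCl ℂ g U := by
      apply DifferentiableOn.diffContOnCl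
      intro z hz
      have hz0 : z ≠ 0 := by
        have := (hcl hz).1
        intro h
        rw [h, norm_zero] at this
        linarith
      apply DifferentiableAt.differentiableWithinAt
      apply DifferentiableAt.fun_smul
      · exact (differentiableAt_id.pow m).inv (pow_ne_zero _ hz0)
      · exact (hf z).pow n
    have hbd : ∀ z ∈ frontier U, ‖g z‖ ≤ Y ^ m := by
      intro z hz
      have hz1 := hcl hz.1
      have hz2 : z ∉ U := by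
        have := hz.2
        rwa [hUo.interior_eq] at this
      have hng : ‖g z‖ = (‖z‖ ^ m)⁻¹ * ‖(f z) ^ n‖ := by
        show ‖(z ^ m)⁻¹ • (f z) ^ n‖ = _
        rw [norm_smul, norm_inv, norm_pow]
      rcases eq_or_lt_of_le hz1.1 with h3 | h3
      · have h4 := hinner z h3.symm _ n0
        rw [← e0] at h4
        rw [hng, ← h3, hY, div_pow, ← pow_mul, ← hn, div_eq_inv_mul]
        gcongr
      · rcases eq_or_lt_of_le hz1.2 with h4 | h4
        · have h5 := houter z h4 _ n1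
          rw [← e1] at h5
          rw [hng, h4]
          calc (R ^ m)⁻¹ * ‖(f z) ^ n‖ ≤ (R ^ m)⁻¹ * K ^ n := by gcongr
            _ = (K ^ q / R) ^ m := by rw [div_pow, ← pow_mul, ← hn, div_eq_inv_mul]
            _ ≤ Y ^ m := pow_le_pow_left₀ (by positivity) hR2 _
        · exact absurd ⟨h3, h4⟩ hz2
    have hlU : l ∈ closure U := subset_closure ⟨hδ2, hR1⟩
    have h3 := Complex.norm_le_of_forall_mem_frontier_norm_le hUb hdiff hbd hlU
    have h4 : ‖g l‖ = (‖l‖ ^ m)⁻¹ * ‖(f l) ^ n‖ := by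
      show ‖(l ^ m)⁻¹ • (f l) ^ n‖ = _
      rw [norm_smul, norm_inv, norm_pow]
    rw [h4] at h3
    have h5 : ‖μ‖ ^ n ≤ ‖(f l) ^ n‖ * ‖(1 : B)‖ := by
      have := spectrum.norm_le_norm_mul_of_mem (spectrum.pow_mem_pow (f l) n hμ)
      rwa [norm_pow] at this
    rw [div_pow, ← pow_mul, ← hn, div_le_iff₀ (by positivity)]
    calc ‖μ‖ ^ n ≤ ‖(f l) ^ n‖ * ‖(1 : B)‖ := h5
      _ = ‖(1 : B)‖ * ((‖l‖ ^ m)⁻¹ * ‖(f l) ^ n‖) * ‖l‖ ^ m := by field_simp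
      _ ≤ ‖(1 : B)‖ * Y ^ m * ‖l‖ ^ m := by gcongr
  set X : ℝ := ‖μ‖ ^ q / ‖l‖ with hX
  have hX0 : 0 < X := by positivity
  have hXY : 1 < X / Y := (one_lt_div hY0).2 hq'
  obtain ⟨t, ht⟩ := pow_unbounded_of_one_lt (‖(1 : B)‖) hXY
  have h3 := key (t + 1) (by omega)
  have h4 : (X / Y) ^ (2 ^ (j₀ + j₁) * (t + 1)) ≤ ‖(1 : B)‖ := by
    rw [div_pow, div_le_iff₀ (by positivity)]
    exact h3
  have h5 : (X / Y) ^ t ≤ (X / Y) ^ (2 ^ (j₀ + j₁) * (t + 1)) := by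
    apply pow_le_pow_right₀ hXY.le
    have : 1 ≤ 2 ^ (j₀ + j₁) := Nat.one_le_two_pow
    nlinarith
  linarith

end Pool.Agent.Helper877.SB
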