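import Mathlib
import Pool.Agent.Helper877.SB.Liou

set_option autoImplicit false

open scoped Topology
open Filter

noncomputable section

namespace Pool.Agent.Helper877.SB

variable {B : Type*} [NormedRing B] [NormedAlgebra ℂ B] [CompleteSpace B]

omit [CompleteSpace B] in
/-- conjugation does not change the spectrum -/
theorem spectrum_conj (u : Bˣ) (z : B) : spectrum ℂ ((↑u⁻¹ : B) * z * u) = spectrum ℂ z := by
  ext μ
  rw [spectrum.mem_iff, spectrum.mem_iff]
  have h : algebraMap ℂ B μ - ↑u⁻¹ * z * u = ↑u⁻¹ * (algebraMap ℂ B μ - z) * u := by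
    rw [mul_sub, sub_mul, ← Algebra.commutes, mul_assoc _ (↑u⁻¹ : B) (u : B), Units.inv_mul,
      mul_one]
  rw [h]
  have h2 : IsUnit (↑u⁻¹ * (algebraMap ℂ B μ - z) * u) ↔ IsUnit (algebraMap ℂ B μ - z) := by
    rw [Units.isUnit_mul_units, Units.isUnit_units_mul]
  rw [h2]

theorem zem_mem (z : B) (h : ∀ b : B, ∃ C : ℝ, ∀ l : ℂ, ∀ μ ∈ spectrum ℂ (b + l • z), ‖μ‖ ≤ C)
    (J : Ideal B) (hJ : J.IsMaximal) : z ∈ J := by
  have hnil : ∀ μ ∈ spectrum ℂ z, ‖μ‖ ≤ 0 := by
    obtain ⟨C, hC⟩ := h 0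
    have h1 : Differentiable ℂ fun l : ℂ => (0 : B) + l • z := by fun_prop
    have h2 := liou (fun l : ℂ => (0 : B) + l • z) h1 hC (ρ := 0) ?_ 1
    · simpa using h2
    · intro μ hμ
      simp only [zero_smul, add_zero] at hμ
      have hne : Nontrivial B := by
        by_contra hn
        rw [not_nontrivial_iff_subsingleton] at hn
        simp at hμ
      rw [spectrum.zero_eq, Set.mem_singleton_iff] at hμ
      rw [hμ, norm_zero]
  have hconj : ∀ u : Bˣ, ∀ μ ∈ spectrum ℂ (z - ↑u⁻¹ * z * u), ‖μ‖ ≤ 0 := by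
    intro u
    obtain ⟨C, hC⟩ := h (-(↑u⁻¹ * z * u))
    have h1 : Differentiable ℂ fun l : ℂ => -(↑u⁻¹ * z * (u : B)) + l • z := by fun_prop
    have h2 := liou (fun l : ℂ => -(↑u⁻¹ * z * (u : B)) + l • z) h1 hC (ρ := 0) ?_ 1
    · intro μ hμ
      apply h2 μ
      simp only [one_smul]
      rwa [neg_add_eq_sub]
    · intro μ hμ
      simp only [zero_smul, add_zero] at hμ
      rw [← spectrum.neg_eq, Set.mem_neg, spectrum_conj] at hμ
      rw [← norm_neg]
      exact hnil _ hμ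
  by_contra hz
  have hmax : ∀ x : B, x ∉ J → ∃ r : B, r * x - 1 ∈ J := by
    intro x hx
    obtain ⟨r, i, hi, hri⟩ := hJ.exists_inv hx
    refine ⟨r, ?_⟩
    rw [← hri, sub_add_cancel_left]
    exact neg_mem hi
  have hunit : ∀ x : B, IsUnit x → x ∉ J := fun x hx hxJ => hJ.ne_top (J.eq_top_of_isUnit_mem hxJ hx)
  by_cases hA : ∃ c ∈ J, c * z ∉ J
  · obtain ⟨c1, hc1, hc1z⟩ := hA
    obtain ⟨r, hr⟩ := hmax _ hc1z
    obtain ⟨c, hcdef⟩ : ∃ c, c = r * c1 := ⟨_, rfl⟩
    have hc : c ∈ J := by rw [hcdef]; exact J.mul_mem_left r hc1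
    have hcz : c * z - 1 ∈ J := by rw [hcdef, mul_assoc]; exact hr
    obtain ⟨ε, hε⟩ : ∃ ε : ℝ, ε = (2 * (‖c‖ + 1))⁻¹ := ⟨_, rfl⟩
    have hε0 : 0 < ε := by rw [hε]; positivity
    have hεc : ‖-((ε : ℂ) • c)‖ < 1 := by
      rw [norm_neg, norm_smul, Complex.norm_real, Real.norm_of_nonneg hε0.le, hε,
        inv_mul_lt_iff₀ (by positivity)]
      have := norm_nonneg c
      linarith
    obtain ⟨u, hu⟩ := isUnit_one_sub_of_norm_lt_one hεc
    rw [sub_neg_eq_add] at hu
    have h1 : (u : B) * ((z - ↑u⁻¹ * z * u) - algebraMap ℂ B ε) ∈ J := by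
      have e1 : (u : B) * ((z - ↑u⁻¹ * z * u) - algebraMap ℂ B ε)
          = (ε : ℂ) • (c * z - 1) - (ε : ℂ) • ((z + algebraMap ℂ B ε) * c) := by
        rw [mul_sub, mul_sub, ← mul_assoc, ← mul_assoc, Units.mul_inv, one_mul, hu,
          Algebra.algebraMap_eq_smul_one]
        simp only [mul_add, add_mul, mul_one, one_mul, smul_mul_assoc, mul_smul_comm, smul_add,
          smul_sub]
        abel
      rw [e1]
      have e2 : ∀ (a : ℂ) (x : B), x ∈ J → a • x ∈ J := by
        intro a x hx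
        rw [← one_mul x, ← smul_mul_assoc]
        exact J.mul_mem_left _ hx
      exact sub_mem (e2 _ _ hcz) (e2 _ _ (J.mul_mem_left _ hc))
    have h2 : (z - ↑u⁻¹ * z * u) - algebraMap ℂ B ε ∈ J := by
      have := J.mul_mem_left (↑u⁻¹ : B) h1
      rwa [← mul_assoc, Units.inv_mul, one_mul] at this
    have h3 : (ε : ℂ) ∈ spectrum ℂ (z - ↑u⁻¹ * z * u) := by
      rw [spectrum.mem_iff]
      intro h4
      refine hunit _ h4 ?_
      rw [← neg_sub]
      exact neg_mem h2
    have h4 := hconj u _ h3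
    rw [Complex.norm_real, Real.norm_of_nonneg hε0.le] at h4
    linarith
  · push Not at hA
    obtain ⟨b', hb'⟩ := hmax z hz
    have hJ2 : ∀ c : B, c * z ∈ J → c ∈ J := by
      intro c hcz
      by_contra hcJ
      obtain ⟨r, hr⟩ := hmax c hcJ
      apply hz
      have h1 := hA _ hr
      have h2 : z = r * (c * z) - (r * c - 1) * z := by noncomm_ring
      rw [h2]
      exact sub_mem (J.mul_mem_left _ hcz) h1
    have hzb : z * b' - 1 ∈ J := by
      apply hJ2
      have : (z * b' - 1) * z = z * (b' * z - 1) := by noncomm_ring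
      rw [this]
      exact J.mul_mem_left _ hb'
    have hJb : ∀ j ∈ J, j * b' ∈ J := by
      intro j hj
      apply hJ2
      have : j * b' * z = j * (b' * z - 1) + j := by noncomm_ring
      rw [this]
      exact add_mem (J.mul_mem_left _ hb') hj
    have hJbn : ∀ n : ℕ, ∀ j ∈ J, j * b' ^ n ∈ J := by
      intro n
      induction n with
      | zero => intro j hj; simpa using hj
      | succ n ih =>
        intro j hj
        rw [pow_succ, ← mul_assoc]
        exact hJb _ (ih j hj)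
    have hpow : ∀ n : ℕ, z ^ n * b' ^ n - 1 ∈ J := by
      intro n
      induction n with
      | zero => simp
      | succ n ih =>
        have : z ^ (n + 1) * b' ^ (n + 1) - 1 =
            z ^ n * ((z * b' - 1) * b' ^ n) + (z ^ n * b' ^ n - 1) := by
          rw [pow_succ, pow_succ']
          noncomm_ring
        rw [this]
        exact add_mem (J.mul_mem_left _ (hJbn n _ hzb)) ih
    have hne : Nontrivial B := by
      by_contra hn
      rw [not_nontrivial_iff_subsingleton] at hn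
      exact hz (by rw [Subsingleton.elim z 0]; exact zero_mem J)
    obtain ⟨ρ, hρ⟩ : ∃ ρ : ℝ, ρ = (2 * (‖b'‖ + 1))⁻¹ := ⟨_, rfl⟩
    have hρ0 : 0 < ρ := by rw [hρ]; positivity
    obtain ⟨k, hk⟩ := eventually_pow_lt z le_rfl hρ0 hnil
    have h1 : ‖z ^ (k + 1) * b' ^ (k + 1)‖ < 1 := by
      have h2 := hk (k + 1) (by omega)
      have h3 := norm_pow_le' b' (show 0 < k + 1 by omega)
      calc ‖z ^ (k + 1) * b' ^ (k + 1)‖ ≤ ‖z ^ (k + 1)‖ * ‖b' ^ (k + 1)‖ := norm_mul_le _ _
        _ ≤ ρ ^ (k + 1) * ‖b'‖ ^ (k + 1) := by gcongr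
        _ = (ρ * ‖b'‖) ^ (k + 1) := by rw [mul_pow]
        _ < 1 := by
          apply pow_lt_one₀ (by positivity) _ (by omega)
          rw [hρ, inv_mul_lt_iff₀ (by positivity)]
          have := norm_nonneg b'
          linarith
    have h2 := isUnit_one_sub_of_norm_lt_one h1
    refine hunit _ h2 ?_
    rw [← neg_sub]
    exact neg_mem (hpow _)

/-- **Zemánek's characterisation of the radical**, in the form used here. -/
theorem zem (hB : (⊥ : Ideal B).jacobson = ⊥) (z : B)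
    (h : ∀ b : B, ∃ C : ℝ, ∀ l : ℂ, ∀ μ ∈ spectrum ℂ (b + l • z), ‖μ‖ ≤ C) : z = 0 := by
  have h1 : z ∈ (⊥ : Ideal B).jacobson := by
    unfold Ideal.jacobson
    rw [Ideal.mem_sInf]
    rintro J ⟨_, hJ⟩
    exact zem_mem z h J hJ
  rw [hB] at h1
  exact h1

end Pool.Agent.Helper877.SB
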