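import Mathlib
import Pool.Agent.Helper877.SB.Zem

set_option autoImplicit false

open scoped Topology
open Filter

noncomputable section

namespace Pool.Agent.Helper877.SB

variable {B : Type*} [NormedRing B] [NormedAlgebra ℂ B] [CompleteSpace B]

omit [CompleteSpace B] in
/-- shift of the spectrum by a scalar, bound form -/
theorem spectrum_shift_bound (y : B) (α : ℂ) {C : ℝ} (h : ∀ μ ∈ spectrum ℂ y, ‖μ‖ ≤ C) :
    ∀ μ ∈ spectrum ℂ (y + α • (1 : B)), ‖μ‖ ≤ C + ‖α‖ := by
  intro μ hμ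
  rw [add_comm, ← Algebra.algebraMap_eq_smul_one, ← spectrum.singleton_add_eq] at hμ
  obtain ⟨a, ha, b, hb, rfl⟩ := Set.mem_add.1 hμ
  rw [Set.mem_singleton_iff] at ha
  rw [ha]
  have := h b hb
  calc ‖α + b‖ ≤ ‖α‖ + ‖b‖ := norm_add_le _ _
    _ ≤ C + ‖α‖ := by linarith

section abs

variable {A : Type*} [Ring A] [Algebra ℂ A] (T : A →ₗ[ℂ] B)

/-- The spectra of `T` are bounded on each conjugation orbit. -/
def OrbitBdd : Prop :=
  ∀ a : A, ∃ C : ℝ, ∀ u v : A, u * v = 1 → v * u = 1 → ∀ μ ∈ spectrum ℂ (T (v * a * u)), ‖μ‖ ≤ C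

variable {T}

theorem inv_one (x : A) (hx : x * x = 0) : (1 - x) * (1 + x) = 1 := by
  calc (1 - x) * (1 + x) = 1 - x * x := by noncomm_ring
    _ = 1 := by rw [hx, sub_zero]

theorem inv_two (x : A) (hx : x * x = 0) : (1 + x) * (1 - x) = 1 := by
  calc (1 + x) * (1 - x) = 1 - x * x := by noncomm_ring
    _ = 1 := by rw [hx, sub_zero]

omit [CompleteSpace B] in
theorem conj_formula (x c : A) (l : ℂ) :
    T ((1 - l • x) * c * (1 + l • x)) = T c + l • T (c * x - x * c) - l ^ 2 • T (x * c * x) := by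
  have : (1 - l • x) * c * (1 + l • x) = c + l • (c * x - x * c) - l ^ 2 • (x * c * x) := by
    simp only [sub_mul, mul_add, mul_one, one_mul, smul_mul_assoc, mul_smul_comm, smul_sub,
      smul_smul, sq]
    abel
  rw [this, map_sub, map_add, map_smul, map_smul]

theorem conj_le (hT : OrbitBdd T) (x c : A) (hx : x * x = 0) (α : ℂ) {ρ : ℝ}
    (h : ∀ μ ∈ spectrum ℂ (T c + α • (1 : B)), ‖μ‖ ≤ ρ) :
    ∀ μ ∈ spectrum ℂ (T ((1 - x) * c * (1 + x)) + α • (1 : B)), ‖μ‖ ≤ ρ := by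
  obtain ⟨C, hC⟩ := hT c
  let f : ℂ → B := fun l => T c + l • T (c * x - x * c) - l ^ 2 • T (x * c * x) + α • (1 : B)
  have hf : Differentiable ℂ f := by
    show Differentiable ℂ fun l : ℂ =>
      T c + l • T (c * x - x * c) - l ^ 2 • T (x * c * x) + α • (1 : B)
    fun_prop
  have h1 := liou f hf (C := C + ‖α‖) (ρ := ρ) ?_ ?_ 1
  · have h2 : f 1 = T ((1 - x) * c * (1 + x)) + α • (1 : B) := by
      have := conj_formula (T := T) x c 1
      rw [one_smul] at this
      rw [this]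
    rwa [h2] at h1
  · intro l
    have h2 : f l = T ((1 - l • x) * c * (1 + l • x)) + α • (1 : B) := by
      rw [conj_formula x c l]
    rw [h2]
    apply spectrum_shift_bound
    have hlx : (l • x) * (l • x) = 0 := by
      rw [smul_mul_smul_comm, hx, smul_zero]
    exact hC _ _ (inv_two _ hlx) (inv_one _ hlx)
  · have h2 : f 0 = T c + α • (1 : B) := by
      show T c + (0 : ℂ) • T (c * x - x * c) - (0 : ℂ) ^ 2 • T (x * c * x) + α • (1 : B) = _
      simp
    rwa [h2]

/-- bounded spectrum -/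
theorem exists_spec_bound (y : B) : ∃ C : ℝ, ∀ μ ∈ spectrum ℂ y, ‖μ‖ ≤ C :=
  ⟨‖y‖ * ‖(1 : B)‖, fun _ hμ => spectrum.norm_le_norm_mul_of_mem hμ⟩

theorem conj_eq (hB : (⊥ : Ideal B).jacobson = ⊥) (hs : Function.Surjective T) (hT : OrbitBdd T)
    (x k : A) (hx : x * x = 0) (α : ℂ) (hk : T k = α • (1 : B)) :
    T ((1 - x) * k * (1 + x)) = α • (1 : B) := by
  rw [← sub_eq_zero]
  apply zem hB
  intro b
  obtain ⟨c, rfl⟩ := hs b
  obtain ⟨C, hC⟩ := exists_spec_bound (T ((1 + x) * c * (1 - x)))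
  refine ⟨C, fun l => ?_⟩
  have h1 := conj_le hT x ((1 + x) * c * (1 - x) + l • k) hx (-(l * α)) (ρ := C) ?_
  · have h2 : T ((1 - x) * ((1 + x) * c * (1 - x) + l • k) * (1 + x)) + (-(l * α)) • (1 : B)
        = T c + l • (T ((1 - x) * k * (1 + x)) - α • (1 : B)) := by
      have h3 : (1 - x) * ((1 + x) * c * (1 - x) + l • k) * (1 + x)
          = c + l • ((1 - x) * k * (1 + x)) := by
        have e1 : (1 - x) * (1 + x) = 1 := inv_one x hx
        have e2 : (1 - x) * ((1 + x) * c * (1 - x) + l • k) * (1 + x) =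
            ((1 - x) * (1 + x)) * c * ((1 - x) * (1 + x)) + l • ((1 - x) * k * (1 + x)) := by
          have e3 : ∀ y z : A, (1 - x) * (y + z) * (1 + x)
              = (1 - x) * y * (1 + x) + (1 - x) * z * (1 + x) := by
            intro y z; noncomm_ring
          rw [e3, mul_smul_comm, smul_mul_assoc]
          congr 1
          noncomm_ring
        rw [e2, e1, one_mul, mul_one]
      rw [h3, map_add, map_smul, smul_sub, smul_smul, neg_smul]
      abel
    rwa [h2] at h1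
  · have h2 : T ((1 + x) * c * (1 - x) + l • k) + (-(l * α)) • (1 : B)
        = T ((1 + x) * c * (1 - x)) := by
      rw [map_add, map_smul, hk, smul_smul, neg_smul, add_neg_cancel_right]
    rwa [h2]

/-- If `T k` is a scalar and `x² = 0` then `T [k, x] = 0` and `T (x k x) = 0`. -/
theorem comm_eq_zero (hB : (⊥ : Ideal B).jacobson = ⊥) (hs : Function.Surjective T)
    (hT : OrbitBdd T) (x k : A) (hx : x * x = 0) (α : ℂ) (hk : T k = α • (1 : B)) :
    T (k * x - x * k) = 0 ∧ T (x * k * x) = 0 := by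
  have h1 := conj_eq hB hs hT x k hx α hk
  have h2 := conj_eq hB hs hT (-x) k (by rw [neg_mul_neg, hx]) α hk
  have h3 := conj_formula (T := T) x k 1
  have h4 := conj_formula (T := T) x k (-1)
  rw [one_smul] at h3
  rw [neg_smul, one_smul] at h4
  rw [h3, hk] at h1
  rw [h4, hk] at h2
  simp only [one_smul, neg_smul, one_pow, even_two, Even.neg_pow] at h1 h2
  have h5 : T (k * x - x * k) - T (x * k * x) = 0 := by
    have : α • (1 : B) + T (k * x - x * k) - T (x * k * x) - α • (1 : B) = 0 := by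
      rw [h1, sub_self]
    rw [← this]; abel
  have h6 : -T (k * x - x * k) - T (x * k * x) = 0 := by
    have : α • (1 : B) + -T (k * x - x * k) - T (x * k * x) - α • (1 : B) = 0 := by
      rw [h2, sub_self]
    rw [← this]; abel
  have h7 : (2 : ℂ) • T (k * x - x * k) = 0 := by
    calc (2 : ℂ) • T (k * x - x * k) = (T (k * x - x * k) - T (x * k * x)) -
        (-T (k * x - x * k) - T (x * k * x)) := by rw [two_smul]; abel
      _ = 0 := by rw [h5, h6, sub_self]
  have h8 : T (k * x - x * k) = 0 := (smul_eq_zero.1 h7).resolve_left two_ne_zero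
  refine ⟨h8, ?_⟩
  rw [h8, zero_sub, neg_eq_zero] at h5
  exact h5

end abs

section closed

variable {A : Type*} [NormedRing A] [NormedAlgebra ℂ A] {T : A →ₗ[ℂ] B}

theorem ker_closed (hB : (⊥ : Ideal B).jacobson = ⊥) (hs : Function.Surjective T) {C : ℝ}
    (hC0 : 0 ≤ C) (hC : ∀ a : A, ∀ μ ∈ spectrum ℂ (T a), ‖μ‖ ≤ C * ‖a‖) (a : A)
    (ha : ∀ ε > 0, ∃ k : A, T k = 0 ∧ ‖a - k‖ < ε) : T a = 0 := by
  apply zem hB
  intro b
  obtain ⟨c, rfl⟩ := hs b
  refine ⟨C * (‖c‖ + 1), fun l μ hμ => ?_⟩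
  obtain ⟨k, hk, hak⟩ := ha (‖l‖ + 1)⁻¹ (by positivity)
  have h1 : T c + l • T a = T (c + l • (a - k)) := by
    rw [map_add, map_smul, map_sub, hk, sub_zero]
  rw [h1] at hμ
  refine (hC _ μ hμ).trans ?_
  gcongr
  refine (norm_add_le _ _).trans ?_
  rw [norm_smul]
  gcongr
  have h2 : 0 < ‖l‖ + 1 := by positivity
  calc ‖l‖ * ‖a - k‖ ≤ (‖l‖ + 1) * (‖l‖ + 1)⁻¹ := by
        gcongr
        linarith
    _ = 1 := mul_inv_cancel₀ h2.ne'

end closed

end Pool.Agent.Helper877.SB
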