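import Mathlib

set_option autoImplicit false

open scoped InnerProductSpace Topology ComplexOrder
open Filter

noncomputable section

namespace Pool.Agent.Helper877.SB

universe u

variable {H : Type u} [NormedAddCommGroup H] [InnerProductSpace ℂ H] [CompleteSpace H]

theorem mem_iff (N : VonNeumannAlgebra H) (z : H →L[ℂ] H) :
    z ∈ N ↔ ∀ t ∈ Set.centralizer (N : Set (H →L[ℂ] H)), t * z = z * t := by
  constructor
  · intro hz t ht
    exact (ht z hz).symm
  · intro hz
    have h1 : z ∈ Set.centralizer (Set.centralizer (N : Set (H →L[ℂ] H))) := hz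
    rw [VonNeumannAlgebra.centralizer_centralizer] at h1
    exact h1

theorem star_mem_cent (N : VonNeumannAlgebra H) {t : H →L[ℂ] H}
    (ht : t ∈ Set.centralizer (N : Set (H →L[ℂ] H))) :
    star t ∈ Set.centralizer (N : Set (H →L[ℂ] H)) := by
  intro x hx
  have h1 : star x * t = t * star x := ht (star x) (star_mem hx)
  have h2 := congrArg star h1
  rw [star_mul, star_mul, star_star] at h2
  exact h2.symm

theorem isClosed_vn (N : VonNeumannAlgebra H) : IsClosed (N : Set (H →L[ℂ] H)) := by
  have : (N : Set (H →L[ℂ] H)) =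
      ⋂ t ∈ Set.centralizer (N : Set (H →L[ℂ] H)), {z : H →L[ℂ] H | t * z = z * t} := by
    ext z
    rw [SetLike.mem_coe, mem_iff]
    simp
  rw [this]
  refine isClosed_biInter fun t _ => isClosed_eq ?_ ?_
  · exact continuous_const.mul continuous_id
  · exact continuous_id.mul continuous_const

theorem commute_starProjection (K : Submodule ℂ H) [K.HasOrthogonalProjection] (t : H →L[ℂ] H)
    (h1 : ∀ v ∈ K, t v ∈ K) (h2 : ∀ v ∈ K, (star t) v ∈ K) :
    K.starProjection * t = t * K.starProjection := by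
  ext v
  show K.starProjection (t v) = t (K.starProjection v)
  symm
  apply (Submodule.eq_starProjection_of_mem_of_inner_eq_zero (h1 _ (K.starProjection_apply_mem v)) ?_).symm
  intro w hw
  rw [← map_sub, ← ContinuousLinearMap.adjoint_inner_right]
  exact K.starProjection_inner_eq_zero _ _ (h2 w hw)

/-- The range projection of `z`. -/
theorem exists_rangeProj (N : VonNeumannAlgebra H) {z : H →L[ℂ] H} (hz : z ∈ N) :
    ∃ p ∈ N, star p = p ∧ p * p = p ∧ p * z = z ∧ ∀ y : H →L[ℂ] H, y * z = 0 → y * p = 0 := by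
  let K : Submodule ℂ H := (LinearMap.range (z : H →ₗ[ℂ] H)).topologicalClosure
  have hKc : IsClosed (K : Set H) := Submodule.isClosed_topologicalClosure _
  have : CompleteSpace K := hKc.completeSpace_coe
  have hzK : ∀ v, z v ∈ K := fun v => Submodule.le_topologicalClosure _ ⟨v, rfl⟩
  have hinv : ∀ t ∈ Set.centralizer (N : Set (H →L[ℂ] H)), ∀ v ∈ K, t v ∈ K := by
    intro t ht
    have h1 : LinearMap.range (z : H →ₗ[ℂ] H) ≤ K.comap (t : H →ₗ[ℂ] H) := by
      rintro _ ⟨v, rfl⟩
      show t (z v) ∈ K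
      have e1 : z * t = t * z := ht z hz
      have e2 : t (z v) = z (t v) := (congrArg (fun w : H →L[ℂ] H => w v) e1).symm
      rw [e2]
      exact hzK _
    have h2 : IsClosed ((K.comap (t : H →ₗ[ℂ] H) : Submodule ℂ H) : Set H) :=
      hKc.preimage t.continuous
    exact fun v hv => Submodule.topologicalClosure_minimal _ h1 h2 hv
  refine ⟨K.starProjection, ?_, (isSelfAdjoint_starProjection K).star_eq,
    K.isIdempotentElem_starProjection, ?_, ?_⟩
  · rw [mem_iff]
    intro t ht
    exact (commute_starProjection K t (hinv t ht) (hinv _ (star_mem_cent N ht))).symm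
  · ext v
    exact Submodule.starProjection_eq_self_iff.2 (hzK v)
  · intro y hy
    have h1 : K ≤ LinearMap.ker (y : H →ₗ[ℂ] H) := by
      apply Submodule.topologicalClosure_minimal
      · rintro _ ⟨v, rfl⟩
        exact congrArg (fun w : H →L[ℂ] H => w v) hy
      · exact y.isClosed_ker
    ext v
    exact h1 (K.starProjection_apply_mem v)

/-- Continuous functional calculus stays inside. -/
theorem cfc_mem_vn (N : VonNeumannAlgebra H) {a : H →L[ℂ] H} (ha : a ∈ N) (hs : IsSelfAdjoint a)
    (f : ℝ → ℝ) : cfc f a ∈ N := by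
  rw [mem_iff]
  intro t ht
  have h1 : Commute a t := (ht a ha)
  exact (IsSelfAdjoint.commute_cfc hs h1 f).symm

theorem smul_mem_vn (N : VonNeumannAlgebra H) (c : ℂ) {a : H →L[ℂ] H} (ha : a ∈ N) :
    c • a ∈ N := N.toStarSubalgebra.smul_mem ha c

theorem rsmul_mem_vn (N : VonNeumannAlgebra H) (c : ℝ) {a : H →L[ℂ] H} (ha : a ∈ N) :
    c • a ∈ N := by
  have : c • a = (c : ℂ) • a := by rw [Complex.coe_smul]
  rw [this]
  exact smul_mem_vn N _ ha

/-- The spectral cut of a self-adjoint operator at the level `t`. -/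
theorem exists_cut (N : VonNeumannAlgebra H) {a : H →L[ℂ] H} (ha : a ∈ N) (hs : IsSelfAdjoint a)
    {α β : ℝ} (t : ℝ) (h1 : α • (1 : H →L[ℂ] H) ≤ a) (h2 : a ≤ β • (1 : H →L[ℂ] H)) :
    ∃ p ∈ N, star p = p ∧ p * p = p ∧ a ≤ t • (1 : H →L[ℂ] H) + (β - t) • p ∧
      t • (1 : H →L[ℂ] H) - (t - α) • (1 - p) ≤ a := by
  set b : H →L[ℂ] H := cfc (fun s : ℝ => max (s - t) 0) a with hb
  set b' : H →L[ℂ] H := cfc (fun s : ℝ => max (t - s) 0) a with hb'
  have hbN : b ∈ N := cfc_mem_vn N ha hs _
  have hbN' : b' ∈ N := cfc_mem_vn N ha hs _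
  have hbs : star b = b := (cfc_predicate _ a : IsSelfAdjoint b).star_eq
  have hbs' : star b' = b' := (cfc_predicate _ a : IsSelfAdjoint b').star_eq
  have hb0 : 0 ≤ b := cfc_nonneg fun s _ => le_max_right _ _
  have hb0' : 0 ≤ b' := cfc_nonneg fun s _ => le_max_right _ _
  have hbb : b' * b = 0 := by
    rw [hb, hb', ← cfc_mul (fun s : ℝ => max (t - s) 0) (fun s : ℝ => max (s - t) 0) a
      (by fun_prop) (by fun_prop)]
    have : (fun s : ℝ => max (t - s) 0 * max (s - t) 0) = fun _ => (0 : ℝ) := by
      funext s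
      rcases le_total s t with h | h
      · rw [max_eq_right (by linarith : s - t ≤ 0), mul_zero]
      · rw [max_eq_right (by linarith : t - s ≤ 0), zero_mul]
    rw [this, cfc_const_zero]
  have hab : a = t • (1 : H →L[ℂ] H) + (b - b') := by
    have h3 : b - b' = cfc (fun s : ℝ => s - t) a := by
      rw [hb, hb', ← cfc_sub (fun s : ℝ => max (s - t) 0) (fun s : ℝ => max (t - s) 0) a
        (by fun_prop) (by fun_prop)]
      congr 1
      funext s
      rcases le_total s t with h | h
      · rw [max_eq_right (by linarith : s - t ≤ 0), max_eq_left (by linarith : 0 ≤ t - s)]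
        ring
      · rw [max_eq_right (by linarith : t - s ≤ 0), max_eq_left (by linarith : 0 ≤ s - t)]
        ring
    rw [h3, cfc_sub (fun s : ℝ => s) (fun _ => t) a continuousOn_id continuousOn_const,
      cfc_id' ℝ a hs, cfc_const t a hs, Algebra.algebraMap_eq_smul_one]
    abel
  obtain ⟨p, hpN, hps, hpp, hpb, hp0⟩ := exists_rangeProj N hbN
  have hbp : b * p = b := by
    have := congrArg star hpb
    rwa [star_mul, hps, hbs] at this
  have hbp' : b' * p = 0 := hp0 b' hbb
  have hpb' : p * b' = 0 := by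
    have := congrArg star hbp'
    rwa [star_mul, hps, hbs', star_zero] at this
  refine ⟨p, hpN, hps, hpp, ?_, ?_⟩
  · have h3 := star_left_conjugate_le_conjugate h2 p
    rw [hps] at h3
    have h4 : p * a * p = t • p + b := by
      rw [hab]
      simp only [mul_add, mul_sub, add_mul, sub_mul, mul_smul_comm, mul_one, smul_mul_assoc, hpp,
        hpb, hbp, hpb', zero_mul, sub_zero]
    have h5 : p * (β • (1 : H →L[ℂ] H)) * p = β • p := by
      rw [mul_smul_comm, smul_mul_assoc, mul_one, hpp]
    rw [h4, h5] at h3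
    have h6 : b ≤ (β - t) • p := by
      rw [sub_smul, le_sub_iff_add_le, add_comm]
      exact h3
    rw [hab]
    have h7 : b - b' ≤ b := sub_le_self _ hb0'
    exact add_le_add_right (h7.trans h6) _
  · have h3 := star_left_conjugate_le_conjugate h1 (1 - p)
    rw [star_sub, star_one, hps] at h3
    have e1 : (1 - p) * (1 - p) = 1 - p := by
      calc (1 - p) * (1 - p) = 1 - p - p + p * p := by noncomm_ring
        _ = 1 - p := by rw [hpp]; abel
    have h4 : (1 - p) * a * (1 - p) = t • (1 - p) - b' := by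
      have e2 : (1 - p) * b = 0 := by rw [sub_mul, one_mul, hpb, sub_self]
      have e3 : (1 - p) * b' = b' := by rw [sub_mul, one_mul, hpb', sub_zero]
      have e4 : b' * (1 - p) = b' := by rw [mul_sub, mul_one, hbp', sub_zero]
      have gen : ∀ q : H →L[ℂ] H, q * q = q → q * b = 0 → q * b' = b' → b' * q = b' →
          q * a * q = t • q - b' := by
        intro q g1 g2 g3 g4
        rw [hab, mul_add, add_mul, mul_smul_comm, smul_mul_assoc, mul_one, mul_sub, sub_mul, g1,
          g2, g3, g4, zero_mul, zero_sub, sub_eq_add_neg]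
      exact gen _ e1 e2 e3 e4
    have h5 : (1 - p) * (α • (1 : H →L[ℂ] H)) * (1 - p) = α • (1 - p) := by
      rw [mul_smul_comm, smul_mul_assoc, mul_one, e1]
    rw [h4, h5] at h3
    have h6 : b' ≤ (t - α) • (1 - p) := by
      rw [sub_smul, le_sub_iff_add_le, add_comm, ← le_sub_iff_add_le]
      exact h3
    calc t • (1 : H →L[ℂ] H) - (t - α) • (1 - p) ≤ t • (1 : H →L[ℂ] H) - b' := by gcongr
      _ ≤ t • (1 : H →L[ℂ] H) - b' + b := le_add_of_nonneg_right hb0
      _ = a := by
        conv_rhs => rw [hab]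
        abel

end Pool.Agent.Helper877.SB
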