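import Mathlib
import Pool.Agent.Helper278.Factor
import Pool.Agent.Helper877.SB.VN

set_option autoImplicit false

open scoped InnerProductSpace Topology ComplexOrder
open Filter

noncomputable section

namespace Pool.Agent.Helper877.SB

universe u

variable {H : Type u} [NormedAddCommGroup H] [InnerProductSpace ℂ H] [CompleteSpace H]

open Pool.Agent.Helper278 (HasTrivialCenter)

/-- comparison of projections in a factor -/
theorem compare (N : VonNeumannAlgebra H) (hN : HasTrivialCenter N) {p q : H →L[ℂ] H}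
    (hp : p ∈ N) (hq : q ∈ N) (hps : star p = p) (hpp : p * p = p) (hqs : star q = q)
    (hqq : q * q = q) : ∃ w ∈ N, w * (star w * w) = w ∧ q * w = w ∧ w * p = w ∧
      (star w * w = p ∨ w * star w = q) := by
  obtain ⟨w, hwN, hw1, hqp, hext⟩ := Helper278.exists_extreme_corner N p q
  have hpi := Helper278.extreme_partial' N hwN hpp hqq hps hw1 hqp hext
  have hcor := Helper278.extreme_corner' N hwN hp hq hps hpp hqq hqs hqp hpi hext
  have hwp : w * p = w := by
    calc w * p = q * w * p * p := by rw [hqp]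
      _ = q * w * (p * p) := by rw [mul_assoc (q * w)]
      _ = w := by rw [hpp, hqp]
  have hqw : q * w = w := by
    calc q * w = q * (q * w * p) := by rw [hqp]
      _ = (q * q) * w * p := by noncomm_ring
      _ = w := by rw [hqq, hqp]
  refine ⟨w, hwN, hpi, hqw, hwp, ?_⟩
  rcases Helper278.factor_corner N hN (q - w * star w) (p - star w * w)
    (sub_mem hq (mul_mem hwN (star_mem hwN))) (sub_mem hp (mul_mem (star_mem hwN) hwN))
    hcor with h | h
  · exact Or.inr (sub_eq_zero.1 h).symm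
  · exact Or.inl (sub_eq_zero.1 h).symm

/-- The span of the elements of square zero. -/
def LL (N : VonNeumannAlgebra H) : Submodule ℂ (H →L[ℂ] H) :=
  Submodule.span ℂ {x | x ∈ N ∧ x * x = 0}

theorem sq_mem_LL {N : VonNeumannAlgebra H} {x : H →L[ℂ] H} (hx : x ∈ N) (h : x * x = 0) :
    x ∈ LL N := Submodule.subset_span ⟨hx, h⟩

/-- `[z, y]` for two elements of square zero. -/
theorem comm_sq_mem {N : VonNeumannAlgebra H} {y z : H →L[ℂ] H} (hy : y ∈ N) (hz : z ∈ N)
    (hyy : y * y = 0) (hzz : z * z = 0) : z * y - y * z ∈ LL N := by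
  have e1 : z * y - y * z = (1 + z) * y * (1 - z) - y + z * y * z := by noncomm_ring
  rw [e1]
  refine add_mem (sub_mem (sq_mem_LL ?_ ?_) (sq_mem_LL hy hyy)) (sq_mem_LL ?_ ?_)
  · exact mul_mem (mul_mem (add_mem (one_mem N) hz) hy) (sub_mem (one_mem N) hz)
  · have e2 : (1 + z) * y * (1 - z) * ((1 + z) * y * (1 - z)) =
        (1 + z) * y * y * (1 - z) - (1 + z) * y * (z * z) * y * (1 - z) := by noncomm_ring
    rw [e2, hzz, mul_assoc (1 + z) y y, hyy]
    simp
  · exact mul_mem (mul_mem hz hy) hz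
  · have e2 : z * y * z * (z * y * z) = z * y * (z * z) * y * z := by noncomm_ring
    rw [e2, hzz]
    simp

/-- `[a, x] ∈ LL` when `x = p x`, `x p = 0`. -/
theorem comm_mem_LL {N : VonNeumannAlgebra H} {p x a : H →L[ℂ] H} (hp : p ∈ N) (hx : x ∈ N)
    (ha : a ∈ N) (hpx : p * x = x) (hxp : x * p = 0) (hpp : p * p = p) :
    a * x - x * a ∈ LL N := by
  have hxx : x * x = 0 := by
    calc x * x = x * (p * x) := by rw [hpx]
      _ = (x * p) * x := by rw [mul_assoc]
      _ = 0 := by rw [hxp, zero_mul]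
  set q : H →L[ℂ] H := 1 - p with hq
  have hqN : q ∈ N := sub_mem (one_mem N) hp
  have hqx : q * x = 0 := by rw [hq, sub_mul, one_mul, hpx, sub_self]
  have hpq : p * q = 0 := by rw [hq, mul_sub, mul_one, hpp, sub_self]
  have hxq : x * q = x := by rw [hq, mul_sub, mul_one, hxp, sub_zero]
  have e1 : a * x - x * a = p * a * x - x * a * q + ((q * a * p) * x - x * (q * a * p)) := by
    calc a * x - x * a = a * x - (x * q) * a := by rw [hxq]
      _ = (p * a * x + q * a * x) - x * q * a * (q + p) := by rw [hq]; noncomm_ring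
      _ = (p * a * x + q * a * (p * x)) - ((x * q) * a * q + x * q * a * p) := by
          rw [hpx]; noncomm_ring
      _ = _ := by
          have e0 : x * q * a * q = x * a * q := by rw [hxq]
          rw [e0]
          noncomm_ring
  rw [e1]
  refine add_mem (sub_mem (sq_mem_LL ?_ ?_) (sq_mem_LL ?_ ?_)) ?_
  · exact mul_mem (mul_mem hp ha) hx
  · calc p * a * x * (p * a * x) = p * a * (x * p) * a * x := by noncomm_ring
      _ = 0 := by rw [hxp]; simp
  · exact mul_mem (mul_mem hx ha) hqN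
  · calc x * a * q * (x * a * q) = x * a * (q * x) * a * q := by noncomm_ring
      _ = 0 := by rw [hqx]; simp
  · apply comm_sq_mem hx (mul_mem (mul_mem hqN ha) hp) hxx
    calc q * a * p * (q * a * p) = q * a * (p * q) * a * p := by noncomm_ring
      _ = 0 := by rw [hpq]; simp

theorem conj_mem_LL {N : VonNeumannAlgebra H} {p x a : H →L[ℂ] H} (hp : p ∈ N) (hx : x ∈ N)
    (ha : a ∈ N) (hpx : p * x = x) (hxp : x * p = 0) (hpp : p * p = p) :
    (1 - x) * a * (1 + x) - a ∈ LL N := by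
  have e1 : (1 - x) * a * (1 + x) - a = (a * x - x * a) - x * a * x := by noncomm_ring
  rw [e1]
  have hxx : x * x = 0 := by
    calc x * x = x * (p * x) := by rw [hpx]
      _ = (x * p) * x := by rw [mul_assoc]
      _ = 0 := by rw [hxp, zero_mul]
  refine sub_mem (comm_mem_LL hp hx ha hpx hxp hpp) (sq_mem_LL (mul_mem (mul_mem hx ha) hx) ?_)
  calc x * a * x * (x * a * x) = x * a * (x * x) * a * x := by noncomm_ring
    _ = 0 := by rw [hxx]; simp

/-- The rotation attached to a partial isometry of square zero. -/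
theorem rot_mem_LL {N : VonNeumannAlgebra H} {w a : H →L[ℂ] H} (hw : w ∈ N) (ha : a ∈ N)
    (hpi : w * (star w * w) = w) (hww : w * w = 0) :
    star (1 - star w * w - w * star w + star w - w) * a *
      (1 - star w * w - w * star w + star w - w) - a ∈ LL N := by
  set s := star w with hs
  have hsN : s ∈ N := star_mem hw
  have hss : s * s = 0 := by
    have := congrArg star hww
    rwa [star_mul, star_zero] at this
  have hpi' : s * (w * s) = s := by
    have := congrArg star hpi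
    rwa [star_mul, star_mul, star_star, ← hs, mul_assoc] at this
  have h1 : (1 - s) * a * (1 + s) - a ∈ LL N := by
    refine conj_mem_LL (p := s * w) (mul_mem hsN hw) hsN ha ?_ ?_ ?_
    · rw [mul_assoc, hpi']
    · rw [← mul_assoc, hss, zero_mul]
    · rw [mul_assoc, hpi]
  have h2 : ∀ b ∈ N, (1 + w) * b * (1 - w) - b ∈ LL N := by
    intro b hb
    have := conj_mem_LL (N := N) (p := w * s) (x := -w) (a := b) (mul_mem hw hsN) (neg_mem hw) hb
      (by rw [mul_neg, mul_assoc, hpi]) (by rw [neg_mul, ← mul_assoc, hww, zero_mul, neg_zero])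
      (by rw [mul_assoc, hpi'])
    rwa [sub_neg_eq_add, ← sub_eq_add_neg] at this
  have h3 : ∀ b ∈ N, (1 - s) * b * (1 + s) - b ∈ LL N := by
    intro b hb
    refine conj_mem_LL (p := s * w) (mul_mem hsN hw) hsN hb ?_ ?_ ?_
    · rw [mul_assoc, hpi']
    · rw [← mul_assoc, hss, zero_mul]
    · rw [mul_assoc, hpi]
  have e1 : 1 - s * w - w * s + s - w = (1 + s) * (1 - w) * (1 + s) := by
    have : (1 + s) * (1 - w) * (1 + s) = 1 + 2 * s - w - s * w - w * s + s * s - s * (w * s) := by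
      noncomm_ring
    rw [this, hpi', hss]
    noncomm_ring
  have e2 : star (1 - s * w - w * s + s - w) = (1 - s) * (1 + w) * (1 - s) := by
    have h4 : (1 - s) * (1 + w) * (1 - s) = 1 - 2 * s + w - s * w - w * s + s * s + s * (w * s) := by
      noncomm_ring
    rw [h4, hpi', hss]
    have h5 : star s = w := star_star w
    simp only [star_sub, star_add, star_mul, star_one, h5, ← hs]
    noncomm_ring
  rw [e2, e1]
  have hb1 : (1 - s) * a * (1 + s) ∈ N :=
    mul_mem (mul_mem (sub_mem (one_mem N) hsN) ha) (add_mem (one_mem N) hsN)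
  have hb2 : (1 + w) * ((1 - s) * a * (1 + s)) * (1 - w) ∈ N :=
    mul_mem (mul_mem (add_mem (one_mem N) hw) hb1) (sub_mem (one_mem N) hw)
  have e3 : (1 - s) * (1 + w) * (1 - s) * a * ((1 + s) * (1 - w) * (1 + s)) - a =
      ((1 - s) * ((1 + w) * ((1 - s) * a * (1 + s)) * (1 - w)) * (1 + s) -
        (1 + w) * ((1 - s) * a * (1 + s)) * (1 - w)) +
      (((1 + w) * ((1 - s) * a * (1 + s)) * (1 - w)) - (1 - s) * a * (1 + s)) +
      ((1 - s) * a * (1 + s) - a) := by
    simp only [mul_assoc]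
    abel
  rw [e3]
  exact add_mem (add_mem (h3 _ hb2) (h2 _ hb1)) h1

theorem LL_le (N : VonNeumannAlgebra H) {x : H →L[ℂ] H} (hx : x ∈ LL N) : x ∈ N := by
  have : LL N ≤ Subalgebra.toSubmodule N.toStarSubalgebra.toSubalgebra := by
    unfold LL
    rw [Submodule.span_le]
    rintro y ⟨hy, _⟩
    exact hy
  exact this hx

theorem rsmul_mem_LL {N : VonNeumannAlgebra H} (c : ℝ) {a : H →L[ℂ] H} (ha : a ∈ LL N) :
    c • a ∈ LL N := by
  have : c • a = (c : ℂ) • a := by rw [Complex.coe_smul]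
  rw [this]
  exact Submodule.smul_mem _ _ ha

theorem proj_compl {p : H →L[ℂ] H} (hpp : p * p = p) : (1 - p) * (1 - p) = 1 - p := by
  calc (1 - p) * (1 - p) = 1 - p - p + p * p := by noncomm_ring
      _ = 1 - p := by rw [hpp]; abel

/-- algebra of the rotation -/
theorem rot_unitary {w s : H →L[ℂ] H} (hpi : w * (s * w) = w) (hpi' : s * (w * s) = s)
    (hww : w * w = 0) (hss : s * s = 0) :
    (1 - s * w - w * s + w - s) * (1 - s * w - w * s + s - w) = 1 := by
  have a1 : ∀ z : H →L[ℂ] H, w * (w * z) = 0 := fun z => by rw [← mul_assoc, hww, zero_mul]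
  have a2 : ∀ z : H →L[ℂ] H, s * (s * z) = 0 := fun z => by rw [← mul_assoc, hss, zero_mul]
  simp only [mul_add, add_mul, mul_sub, sub_mul, mul_assoc, mul_one, one_mul, hww, hss, hpi,
      hpi', a1, a2, mul_zero, sub_zero, add_zero]
  abel

/-- two orthogonal projections add up to at most one -/
theorem add_le_one_of {p q e : H →L[ℂ] H} (hpq : 1 - p = q) (hqs : star q = q) (hqq : q * q = q)
    (hes : star e = e) (hee : e * e = e) (hqe : q * e = e) (heq : e * q = e) : p + e ≤ 1 := by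
  have h6 : 0 ≤ star (q - e) * (q - e) := star_mul_self_nonneg _
  have h7 : star (q - e) * (q - e) = 1 - (p + e) := by
    rw [star_sub, hqs, hes]
    calc (q - e) * (q - e) = q * q - q * e - e * q + e * e := by noncomm_ring
      _ = 1 - (p + e) := by rw [hqq, hqe, heq, hee, ← hpq]; abel
  rw [h7] at h6
  exact sub_nonneg.1 h6

theorem half_le {c : ℝ} {x y : H →L[ℂ] H} (hxy : x + y ≤ (2 * c) • (1 : H →L[ℂ] H)) :
      (2⁻¹ : ℝ) • (x + y) ≤ c • (1 : H →L[ℂ] H) := by
  have h3 := smul_le_smul_of_nonneg_left hxy (show (0 : ℝ) ≤ 2⁻¹ by norm_num)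
  rwa [smul_smul, show (2⁻¹ : ℝ) * (2 * c) = c by ring] at h3

theorem le_half {c : ℝ} {x y : H →L[ℂ] H} (hxy : (2 * c) • (1 : H →L[ℂ] H) ≤ x + y) :
    c • (1 : H →L[ℂ] H) ≤ (2⁻¹ : ℝ) • (x + y) := by
  have h3 := smul_le_smul_of_nonneg_left hxy (show (0 : ℝ) ≤ 2⁻¹ by norm_num)
  rwa [smul_smul, show (2⁻¹ : ℝ) * (2 * c) = c by ring] at h3

/-- The unitary used in the averaging step. -/
theorem exists_rot (N : VonNeumannAlgebra H) (hN : HasTrivialCenter N) {p q : H →L[ℂ] H}
    (hpN : p ∈ N) (hps : star p = p) (hpp : p * p = p) (hq : 1 - p = q) :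
    ∃ v ∈ N, star v * v = 1 ∧ (∀ a ∈ N, star v * a * v - a ∈ LL N) ∧
      ((∃ e, star v * p * v = e ∧ p + e ≤ 1) ∨ (∃ e, star v * q * v = e ∧ q + e ≤ 1)) := by
  have hqN : q ∈ N := hq ▸ sub_mem (one_mem N) hpN
  have hqs : star q = q := by rw [← hq, star_sub, star_one, hps]
  have hqq : q * q = q := by rw [← hq]; exact proj_compl hpp
  have hpq : p * q = 0 := by rw [← hq, mul_sub, mul_one, hpp, sub_self]
  have hq' : 1 - q = p := by rw [← hq]; abel
  obtain ⟨w, hwN, hpi, hqw, hwp, hor⟩ := compare N hN hpN hqN hps hpp hqs hqq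
  have hww : w * w = 0 := by
    calc w * w = (w * p) * (q * w) := by rw [hwp, hqw]
      _ = w * (p * q) * w := by noncomm_ring
      _ = 0 := by rw [hpq]; simp
  obtain ⟨s, hsw⟩ : ∃ s, s = star w := ⟨_, rfl⟩
  have hstars : star s = w := by rw [hsw, star_star]
  rw [← hsw] at hpi hor
  have hsN : s ∈ N := hsw ▸ star_mem hwN
  have hss : s * s = 0 := by
    have := congrArg star hww
    rwa [star_mul, star_zero, ← hsw] at this
  have hpi' : s * (w * s) = s := by
    have := congrArg star hpi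
    rwa [star_mul, star_mul, hstars, ← hsw, mul_assoc] at this
  have hsq : s * q = s := by
    have := congrArg star hqw
    rwa [star_mul, hqs, ← hsw] at this
  have hps' : p * s = s := by
    have := congrArg star hwp
    rwa [star_mul, hps, ← hsw] at this
  have hsp : s * p = 0 := by rw [← hsq, mul_assoc, ← hq, sub_mul, one_mul, hpp, sub_self, mul_zero]
  have hpw : p * w = 0 := by rw [← hqw, ← mul_assoc, hpq, zero_mul]
  have hq0 : q * s = 0 := by rw [← hq, sub_mul, one_mul, hps', sub_self]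
  obtain ⟨v, hv⟩ : ∃ v, v = 1 - s * w - w * s + s - w := ⟨_, rfl⟩
  have hvN : v ∈ N := hv ▸ sub_mem (add_mem (sub_mem (sub_mem (one_mem N) (mul_mem hsN hwN))
    (mul_mem hwN hsN)) hsN) hwN
  have hvs : star v = 1 - s * w - w * s + w - s := by
    rw [hv]
    simp only [star_sub, star_add, star_mul, star_one, hstars, ← hsw]
  refine ⟨v, hvN, ?_, ?_, ?_⟩
  · rw [hvs, hv]
    exact rot_unitary hpi hpi' hww hss
  · intro a ha
    have := rot_mem_LL hwN ha (by rw [← hsw]; exact hpi) hww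
    rw [← hsw, ← hv] at this
    exact this
  · rcases hor with hor | hor
    · left
      have hpv : p * v = s := by
        have h1 : p * v = p - p * (s * w) - (p * w) * s + p * s - p * w := by
          rw [hv]; noncomm_ring
        rw [h1, hor, hpp, hpw, hps', zero_mul]
        abel
      refine ⟨w * s, ?_, ?_⟩
      · calc star v * p * v = star (p * v) * (p * v) := by
              rw [star_mul, hps, ← mul_assoc, mul_assoc (star v) p p, hpp]
          _ = w * s := by rw [hpv, hstars]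
      · apply add_le_one_of hq hqs hqq
        · rw [star_mul, hstars, ← hsw]
        · rw [mul_assoc, hpi']
        · rw [← mul_assoc, hqw]
        · rw [mul_assoc, hsq]
    · right
      have hqv : q * v = -w := by
        have h1 : q * v = q - (q * s) * w - q * (w * s) + q * s - q * w := by
          rw [hv]; noncomm_ring
        rw [h1, hor, hqq, hq0, hqw, zero_mul]
        abel
      refine ⟨s * w, ?_, ?_⟩
      · calc star v * q * v = star (q * v) * (q * v) := by
              rw [star_mul, hqs, ← mul_assoc, mul_assoc (star v) q q, hqq]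
          _ = s * w := by rw [hqv, star_neg, neg_mul_neg, hsw]
      · apply add_le_one_of hq' hps hpp
        · rw [star_mul, hstars, ← hsw]
        · rw [mul_assoc, hpi]
        · rw [← mul_assoc, hps']
        · rw [mul_assoc, hwp]

/-- One averaging step. -/
theorem avg_step (N : VonNeumannAlgebra H) (hN : HasTrivialCenter N) {a : H →L[ℂ] H} (ha : a ∈ N)
    (hs : IsSelfAdjoint a) {α β : ℝ} (hαβ : α ≤ β) (h1 : α • (1 : H →L[ℂ] H) ≤ a)
    (h2 : a ≤ β • (1 : H →L[ℂ] H)) :
    ∃ a' ∈ N, IsSelfAdjoint a' ∧ a - a' ∈ LL N ∧ ∃ α' β' : ℝ, α ≤ α' ∧ α' ≤ β' ∧ β' ≤ β ∧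
      β' - α' = 3 / 4 * (β - α) ∧ α' • (1 : H →L[ℂ] H) ≤ a' ∧ a' ≤ β' • (1 : H →L[ℂ] H) := by
  obtain ⟨t, ht⟩ : ∃ t : ℝ, t = (α + β) / 2 := ⟨_, rfl⟩
  obtain ⟨p, hpN, hps, hpp, hup, hlo⟩ := exists_cut N ha hs t h1 h2
  obtain ⟨q, hq⟩ : ∃ q, 1 - p = q := ⟨_, rfl⟩
  rw [hq] at hlo
  obtain ⟨v, hvN, hvv, hrot, hor⟩ := exists_rot N hN hpN hps hpp hq
  have hrota := hrot a ha
  have hconjN : star v * a * v ∈ N := mul_mem (mul_mem (star_mem hvN) ha) hvN
  have hconjs : IsSelfAdjoint (star v * a * v) := hs.conjugate' v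
  have hcc : ∀ (c d : ℝ) (e : H →L[ℂ] H), star v * (c • (1 : H →L[ℂ] H) + d • e) * v
        = c • (1 : H →L[ℂ] H) + d • (star v * e * v) := by
    intro c d e
    rw [mul_add, add_mul, mul_smul_comm, smul_mul_assoc, mul_one, hvv, mul_smul_comm,
        smul_mul_assoc]
  have hαa : α • (1 : H →L[ℂ] H) ≤ star v * a * v := by
    have h3 := star_left_conjugate_le_conjugate h1 v
    rwa [mul_smul_comm, smul_mul_assoc, mul_one, hvv] at h3
  have hβa : star v * a * v ≤ β • (1 : H →L[ℂ] H) := by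
    have h3 := star_left_conjugate_le_conjugate h2 v
    rwa [mul_smul_comm, smul_mul_assoc, mul_one, hvv] at h3
  have h3 := star_left_conjugate_le_conjugate hup v
  have h3' := star_left_conjugate_le_conjugate hlo v
  rw [hcc] at h3
  rw [sub_eq_add_neg, ← neg_smul, hcc] at h3'
  obtain ⟨c, hc⟩ : ∃ c, c = star v * a * v := ⟨_, rfl⟩
  rw [← hc] at hrota hconjN hconjs hαa hβa h3 h3'
  have hLL : a - (2⁻¹ : ℝ) • (a + c) ∈ LL N := by
    have e1 : a - (2⁻¹ : ℝ) • (a + c) = (-(2⁻¹ : ℝ)) • (c - a) := by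
      rw [neg_smul, smul_sub, smul_add]
      have e2 : a = (2⁻¹ : ℝ) • a + (2⁻¹ : ℝ) • a := by rw [← add_smul]; norm_num
      nth_rw 1 [e2]
      abel
    rw [e1]
    exact rsmul_mem_LL _ hrota
  have hsa : IsSelfAdjoint ((2⁻¹ : ℝ) • (a + c)) := by
    have h4 : star ((2⁻¹ : ℝ) • (a + c)) = (2⁻¹ : ℝ) • (a + c) := by
      rw [star_smul, star_trivial, star_add, hs.star_eq, hconjs.star_eq]
    exact h4
  refine ⟨(2⁻¹ : ℝ) • (a + c), rsmul_mem_vn N _ (add_mem ha hconjN), hsa, hLL, ?_⟩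
  rcases hor with ⟨e, hve, hle⟩ | ⟨e, hve, hle⟩
  · rw [hve] at h3
    refine ⟨α, (t + β) / 2, le_rfl, by linarith, by linarith, by rw [ht]; ring, ?_, ?_⟩
    · apply le_half
      rw [two_mul, add_smul]
      exact add_le_add h1 hαa
    · apply half_le
      have hβt : 0 ≤ β - t := by linarith
      calc a + c ≤ (t • (1 : H →L[ℂ] H) + (β - t) • p) +
            (t • (1 : H →L[ℂ] H) + (β - t) • e) := add_le_add hup h3
        _ = (2 * t) • (1 : H →L[ℂ] H) + (β - t) • (p + e) := by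
            rw [smul_add, two_mul, add_smul]; abel
        _ ≤ (2 * t) • (1 : H →L[ℂ] H) + (β - t) • (1 : H →L[ℂ] H) :=
            add_le_add_right (smul_le_smul_of_nonneg_left hle hβt) _
        _ = (2 * ((t + β) / 2)) • (1 : H →L[ℂ] H) := by
            rw [← add_smul]; congr 1; ring
  · rw [hve] at h3'
    refine ⟨(α + t) / 2, β, by linarith, by linarith, le_rfl, by rw [ht]; ring, ?_, ?_⟩
    · apply le_half
      have htα : 0 ≤ t - α := by linarith
      calc (2 * ((α + t) / 2)) • (1 : H →L[ℂ] H)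
          = (2 * t) • (1 : H →L[ℂ] H) - (t - α) • (1 : H →L[ℂ] H) := by
            rw [← sub_smul]; congr 1; ring
        _ ≤ (2 * t) • (1 : H →L[ℂ] H) - (t - α) • (q + e) :=
            sub_le_sub_left (smul_le_smul_of_nonneg_left hle htα) _
        _ = (t • (1 : H →L[ℂ] H) - (t - α) • q) + (t • (1 : H →L[ℂ] H) + -(t - α) • e) := by
            rw [smul_add, two_mul, add_smul, neg_smul]; abel
        _ ≤ a + c := add_le_add hlo h3'
    · apply half_le
      rw [two_mul, add_smul]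
      exact add_le_add h2 hβa

theorem avg_iter (N : VonNeumannAlgebra H) (hN : HasTrivialCenter N) {a : H →L[ℂ] H} (ha : a ∈ N)
    (hs : IsSelfAdjoint a) {α β : ℝ} (hαβ : α ≤ β) (h1 : α • (1 : H →L[ℂ] H) ≤ a)
    (h2 : a ≤ β • (1 : H →L[ℂ] H)) (n : ℕ) :
    ∃ a' ∈ N, IsSelfAdjoint a' ∧ a - a' ∈ LL N ∧ ∃ α' β' : ℝ, α ≤ α' ∧ α' ≤ β' ∧ β' ≤ β ∧
      β' - α' = (3 / 4) ^ n * (β - α) ∧ α' • (1 : H →L[ℂ] H) ≤ a' ∧
        a' ≤ β' • (1 : H →L[ℂ] H) := by
  induction n with
  | zero => exact ⟨a, ha, hs, by rw [sub_self]; exact zero_mem _, α, β, le_rfl, hαβ, le_rfl,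
      by rw [pow_zero, one_mul], h1, h2⟩
  | succ n ih =>
    obtain ⟨b, hb, hbs, hab, α', β', h3, h4, h5, h6, h7, h8⟩ := ih
    obtain ⟨b', hb', hbs', hab', α'', β'', h3', h4', h5', h6', h7', h8'⟩ :=
      avg_step N hN hb hbs h4 h7 h8
    refine ⟨b', hb', hbs', ?_, α'', β'', h3.trans h3', h4', h5'.trans h5, ?_, h7', h8'⟩
    · have : a - b' = (a - b) + (b - b') := by abel
      rw [this]
      exact add_mem hab hab'
    · rw [h6', h6, pow_succ]; ring

theorem selfAdjoint_mem (N : VonNeumannAlgebra H) (hN : HasTrivialCenter N) {a : H →L[ℂ] H}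
    (ha : a ∈ N) (hs : IsSelfAdjoint a) :
    ∃ γ : ℝ, a - γ • (1 : H →L[ℂ] H) ∈ (LL N).topologicalClosure := by
  have hβ : a ≤ ‖a‖ • (1 : H →L[ℂ] H) := by
    rw [← Algebra.algebraMap_eq_smul_one]
    exact hs.le_algebraMap_norm_self
  have hα : (-‖a‖) • (1 : H →L[ℂ] H) ≤ a := by
    rw [neg_smul, ← Algebra.algebraMap_eq_smul_one]
    exact hs.neg_algebraMap_norm_le_self
  have hαβ : -‖a‖ ≤ ‖a‖ := by linarith [norm_nonneg a]
  choose b hbN hbs hab α' β' h3 h4 h5 h6 h7 h8 using avg_iter N hN ha hs hαβ hα hβ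
  have hmem : ∀ n, α' n ∈ Set.Icc (-‖a‖) ‖a‖ := fun n => ⟨h3 n, (h4 n).trans (h5 n)⟩
  obtain ⟨γ, _, φ, hφ, hlim⟩ := isCompact_Icc.tendsto_subseq hmem
  refine ⟨γ, ?_⟩
  have hnorm : ∀ n, ‖b n - α' n • (1 : H →L[ℂ] H)‖ ≤ (3 / 4) ^ n * (‖a‖ - -‖a‖) := by
    intro n
    rw [← h6 n]
    have h9 : 0 ≤ b n - α' n • (1 : H →L[ℂ] H) := sub_nonneg.2 (h7 n)
    have h10 : b n - α' n • (1 : H →L[ℂ] H) ≤ (β' n - α' n) • (1 : H →L[ℂ] H) := by
      rw [sub_smul]
      exact sub_le_sub_right (h8 n) _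
    refine (CStarAlgebra.norm_le_norm_of_nonneg_of_le h9 h10).trans ?_
    rw [norm_smul, Real.norm_of_nonneg (by linarith [h4 n])]
    have : ‖(1 : H →L[ℂ] H)‖ ≤ 1 := ContinuousLinearMap.norm_id_le
    have h11 : 0 ≤ β' n - α' n := by linarith [h4 n]
    nlinarith
  have hlim2 : Tendsto (fun n => ‖b (φ n) - γ • (1 : H →L[ℂ] H)‖) atTop (𝓝 0) := by
    have e1 : Tendsto (fun n : ℕ => (3 / 4 : ℝ) ^ (φ n) * (‖a‖ - -‖a‖)
        + ‖α' (φ n) - γ‖ * ‖(1 : H →L[ℂ] H)‖) atTop (𝓝 0) := by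
      have e2 : Tendsto (fun n : ℕ => (3 / 4 : ℝ) ^ (φ n)) atTop (𝓝 0) :=
        (tendsto_pow_atTop_nhds_zero_of_lt_one (by norm_num) (by norm_num)).comp hφ.tendsto_atTop
      have e3 : Tendsto (fun n : ℕ => ‖α' (φ n) - γ‖) atTop (𝓝 0) := by
        have := (hlim.sub_const γ).norm
        simpa using this
      have e4 := (e2.mul_const (‖a‖ - -‖a‖)).add (e3.mul_const ‖(1 : H →L[ℂ] H)‖)
      simpa using e4
    refine squeeze_zero (fun _ => norm_nonneg _) (fun n => ?_) e1
    calc ‖b (φ n) - γ • (1 : H →L[ℂ] H)‖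
        = ‖(b (φ n) - α' (φ n) • (1 : H →L[ℂ] H)) + (α' (φ n) - γ) • (1 : H →L[ℂ] H)‖ := by
          rw [sub_smul]; congr 1; abel
      _ ≤ _ := (norm_add_le _ _).trans (add_le_add (hnorm _) (norm_smul_le _ _))
  rw [← SetLike.mem_coe, Submodule.topologicalClosure_coe, Metric.mem_closure_iff]
  intro ε hε
  obtain ⟨n, hn⟩ := (hlim2.eventually_lt_const hε).exists
  refine ⟨a - b (φ n), hab _, ?_⟩
  rw [dist_eq_norm]
  have : a - γ • (1 : H →L[ℂ] H) - (a - b (φ n)) = b (φ n) - γ • (1 : H →L[ℂ] H) := by abel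
  rw [this]
  exact hn

/-- Every element of a factor is a scalar modulo the closed span of the square zero elements. -/
theorem mem_closure_LL (N : VonNeumannAlgebra H) (hN : HasTrivialCenter N) {a : H →L[ℂ] H}
    (ha : a ∈ N) : ∃ γ : ℂ, a - γ • (1 : H →L[ℂ] H) ∈ (LL N).topologicalClosure := by
  obtain ⟨x, hx⟩ : ∃ x, x = (2⁻¹ : ℂ) • (a + star a) := ⟨_, rfl⟩
  obtain ⟨y, hy⟩ : ∃ y, y = (-(2⁻¹ : ℂ) * Complex.I) • (a - star a) := ⟨_, rfl⟩
  have hxN : x ∈ N := hx ▸ smul_mem_vn N _ (add_mem ha (star_mem ha))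
  have hyN : y ∈ N := hy ▸ smul_mem_vn N _ (sub_mem ha (star_mem ha))
  have hxs : IsSelfAdjoint x := by
    show star x = x
    rw [hx, star_smul, star_add, star_star, add_comm]
    congr 1
    simp
  have hys : IsSelfAdjoint y := by
    show star y = y
    rw [hy, star_smul, star_sub, star_star, ← neg_sub a, smul_neg, ← neg_smul]
    congr 1
    simp
  have hxy : a = x + Complex.I • y := by
    rw [hx, hy, smul_smul]
    have e1 : Complex.I * (-(2⁻¹ : ℂ) * Complex.I) = 2⁻¹ := by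
      have := Complex.I_mul_I
      linear_combination (-(2⁻¹ : ℂ)) * this
    rw [e1, ← smul_add]
    have : a + star a + (a - star a) = (2 : ℂ) • a := by rw [two_smul]; abel
    rw [this, smul_smul]
    norm_num
  obtain ⟨γ1, h1⟩ := selfAdjoint_mem N hN hxN hxs
  obtain ⟨γ2, h2⟩ := selfAdjoint_mem N hN hyN hys
  refine ⟨(γ1 : ℂ) + Complex.I * γ2, ?_⟩
  have e2 : a - ((γ1 : ℂ) + Complex.I * γ2) • (1 : H →L[ℂ] H) =
      (x - γ1 • (1 : H →L[ℂ] H)) + Complex.I • (y - γ2 • (1 : H →L[ℂ] H)) := by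
    rw [hxy, add_smul, mul_smul, smul_sub, Complex.coe_smul, Complex.coe_smul]
    abel
  rw [e2]
  exact add_mem h1 (Submodule.smul_mem _ _ h2)

end Pool.Agent.Helper877.SB
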