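import Mathlib
import Pool.Agent.Helper877.SB.Dix

set_option autoImplicit false

open scoped InnerProductSpace Topology ComplexOrder
open Filter

noncomputable section

namespace Pool.Agent.Helper877.SB

universe u

variable {H : Type u} [NormedAddCommGroup H] [InnerProductSpace ℂ H] [CompleteSpace H]

open Pool.Agent.Helper278 (HasTrivialCenter)

theorem norm_sq_apply (X : H →L[ℂ] H) (ξ : H) :
    ‖X ξ‖ ^ 2 = (⟪(star X * X) ξ, ξ⟫_ℂ).re :=
  ContinuousLinearMap.apply_norm_sq_eq_inner_adjoint_left X ξ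

theorem exists_strong_lim (X P : ℕ → H →L[ℂ] H)
    (hP : ∀ n m, n ≤ m → star (X m - X n) * (X m - X n) = P m - P n) (hb : ∀ n, P n ≤ 1) :
    ∃ V : H →L[ℂ] H, ∀ ξ, Tendsto (fun n => X n ξ) atTop (𝓝 (V ξ)) := by
  have hdiff : ∀ ξ n m, n ≤ m → ‖X m ξ - X n ξ‖ ^ 2 =
      (⟪P m ξ, ξ⟫_ℂ).re - (⟪P n ξ, ξ⟫_ℂ).re := by
    intro ξ n m h
    have h1 := norm_sq_apply (X m - X n) ξ
    rw [hP n m h] at h1
    rw [← Complex.sub_re, ← inner_sub_left]
    exact h1
  have hmono : ∀ ξ, Monotone fun n => (⟪P n ξ, ξ⟫_ℂ).re := by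
    intro ξ n m h
    have := hdiff ξ n m h
    have h2 := sq_nonneg ‖X m ξ - X n ξ‖
    show (⟪P n ξ, ξ⟫_ℂ).re ≤ (⟪P m ξ, ξ⟫_ℂ).re
    linarith
  have hbdd : ∀ ξ, BddAbove (Set.range fun n => (⟪P n ξ, ξ⟫_ℂ).re) := by
    intro ξ
    refine ⟨(⟪(1 : H →L[ℂ] H) ξ, ξ⟫_ℂ).re, ?_⟩
    rintro _ ⟨n, rfl⟩
    have h1 := (ContinuousLinearMap.le_def _ _).1 (hb n)
    have h2 := h1.re_inner_nonneg_left ξ
    have h3 : (0 : ℝ) ≤ (⟪(1 - P n) ξ, ξ⟫_ℂ).re := h2
    have h4 : (⟪(1 - P n) ξ, ξ⟫_ℂ).re = (⟪(1 : H →L[ℂ] H) ξ, ξ⟫_ℂ).re - (⟪P n ξ, ξ⟫_ℂ).re := by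
      rw [← Complex.sub_re, ← inner_sub_left]
      rfl
    rw [h4] at h3
    show (⟪P n ξ, ξ⟫_ℂ).re ≤ _
    linarith
  have hcau : ∀ ξ, CauchySeq fun n => X n ξ := by
    intro ξ
    have h1 : CauchySeq fun n => (⟪P n ξ, ξ⟫_ℂ).re :=
      (tendsto_atTop_ciSup (hmono ξ) (hbdd ξ)).cauchySeq
    rw [Metric.cauchySeq_iff'] at h1 ⊢
    intro ε hε
    obtain ⟨n₀, hn₀⟩ := h1 (ε ^ 2) (by positivity)
    refine ⟨n₀, fun n hn => ?_⟩
    have h2 := hn₀ n hn
    rw [Real.dist_eq, abs_of_nonneg (sub_nonneg.2 (hmono ξ hn)), ← hdiff ξ n₀ n hn] at h2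
    rw [dist_eq_norm]
    exact lt_of_pow_lt_pow_left₀ 2 hε.le h2
  choose f hf using fun ξ => cauchySeq_tendsto_of_complete (hcau ξ)
  exact ⟨continuousLinearMapOfTendsto X (tendsto_pi_nhds.2 hf), hf⟩

theorem sum_star_mul_sum (x : ℕ → H →L[ℂ] H) (e : ℕ → H →L[ℂ] H)
    (h : ∀ i j, star (x i) * x j = if i = j then e i else 0) (s : Finset ℕ) :
    star (∑ i ∈ s, x i) * (∑ i ∈ s, x i) = ∑ i ∈ s, e i := by
  rw [star_sum, Finset.sum_mul]
  apply Finset.sum_congr rfl
  intro i hi
  rw [Finset.mul_sum]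
  simp_rw [h]
  rw [Finset.sum_ite_eq s i, if_pos hi]

/-- A finite von Neumann algebra does not contain infinitely many mutually orthogonal copies of a
nonzero projection. -/
theorem shift_zero (N : VonNeumannAlgebra H) (hfin : ∀ u ∈ N, star u * u = 1 → u * star u = 1)
    (w : ℕ → H →L[ℂ] H) (hw : ∀ n, w n ∈ N) (p : H →L[ℂ] H)
    (h1 : ∀ n, star (w n) * w n = p) (hwp : ∀ n, w n * p = w n)
    (horth : ∀ i j, i ≠ j → star (w i) * w j = 0) : p = 0 := by
  have hpp : p * p = p := by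
    nth_rw 1 [← h1 0]
    rw [mul_assoc, hwp 0, h1 0]
  have hww : ∀ i j, star (w i) * w j = if i = j then p else 0 := by
    intro i j
    split_ifs with h
    · rw [h, h1]
    · exact horth i j h
  let e : ℕ → H →L[ℂ] H := fun i => w i * star (w i)
  let v : ℕ → H →L[ℂ] H := fun i => w (i + 1) * star (w i)
  have hes : ∀ i, star (e i) = e i := fun i => by
    show star (w i * star (w i)) = w i * star (w i)
    rw [star_mul, star_star]
  have hewj : ∀ i j, e i * w j = if i = j then w j else 0 := by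
    intro i j
    show w i * star (w i) * w j = _
    rw [mul_assoc, hww]
    split_ifs with h
    · rw [h, hwp]
    · rw [mul_zero]
  have hee : ∀ i j, star (e i) * e j = if i = j then e i else 0 := by
    intro i j
    rw [hes]
    show e i * (w j * star (w j)) = _
    rw [← mul_assoc, hewj]
    split_ifs with h
    · rw [h]
    · rw [zero_mul]
  have hvv : ∀ i j, star (v i) * v j = if i = j then e i else 0 := by
    intro i j
    show star (w (i + 1) * star (w i)) * (w (j + 1) * star (w j)) = _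
    rw [star_mul, star_star, mul_assoc, ← mul_assoc (star (w (i + 1))), hww]
    by_cases h : i = j
    · subst h
      rw [if_pos rfl, if_pos rfl, ← mul_assoc, hwp]
    · rw [if_neg h, if_neg (by omega), zero_mul, mul_zero]
  let E : ℕ → H →L[ℂ] H := fun n => ∑ i ∈ Finset.range n, e i
  let S : ℕ → H →L[ℂ] H := fun n => ∑ i ∈ Finset.range n, v i
  have hEs : ∀ n, star (E n) = E n := by
    intro n
    show star (∑ i ∈ Finset.range n, e i) = ∑ i ∈ Finset.range n, e i
    rw [star_sum]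
    exact Finset.sum_congr rfl fun i _ => hes i
  have hEE : ∀ n, E n * E n = E n := by
    intro n
    have := sum_star_mul_sum e e hee (Finset.range n)
    rwa [show star (∑ i ∈ Finset.range n, e i) = ∑ i ∈ Finset.range n, e i from hEs n] at this
  have hE1 : ∀ n, E n ≤ 1 := by
    intro n
    have h2 : 0 ≤ star (1 - E n) * (1 - E n) := star_mul_self_nonneg _
    have h3 : star (1 - E n) * (1 - E n) = 1 - E n := by
      rw [star_sub, star_one, hEs]
      exact proj_compl (hEE n)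
    rw [h3] at h2
    exact sub_nonneg.1 h2
  have hEd : ∀ n m, n ≤ m → E m - E n = ∑ i ∈ Finset.Ico n m, e i := fun n m h =>
    (Finset.sum_Ico_eq_sub e h).symm
  have hSd : ∀ n m, n ≤ m → S m - S n = ∑ i ∈ Finset.Ico n m, v i := fun n m h =>
    (Finset.sum_Ico_eq_sub v h).symm
  obtain ⟨E', hE'⟩ := exists_strong_lim E E (fun n m h => by
    rw [hEd n m h]; exact sum_star_mul_sum e e hee _) hE1
  obtain ⟨S', hS'⟩ := exists_strong_lim S E (fun n m h => by
    rw [hEd n m h, hSd n m h]; exact sum_star_mul_sum v e hvv _) hE1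
  let X : ℕ → H →L[ℂ] H := fun n => (1 - E (n + 1)) + S n
  have hXN : ∀ n, X n ∈ N := by
    intro n
    refine add_mem (sub_mem (one_mem N) (sum_mem fun i _ => ?_)) (sum_mem fun i _ => ?_)
    · exact mul_mem (hw i) (star_mem (hw i))
    · exact mul_mem (hw (i + 1)) (star_mem (hw i))
  have hXX : ∀ n, star (X n) * X n = 1 - e n := by
    intro n
    have h2 : E (n + 1) * S n = S n := by
      show E (n + 1) * (∑ j ∈ Finset.range n, v j) = ∑ j ∈ Finset.range n, v j
      rw [Finset.mul_sum]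
      apply Finset.sum_congr rfl
      intro j hj
      rw [Finset.mem_range] at hj
      show (∑ i ∈ Finset.range (n + 1), e i) * (w (j + 1) * star (w j)) = w (j + 1) * star (w j)
      rw [← mul_assoc, Finset.sum_mul]
      simp_rw [hewj]
      rw [Finset.sum_ite_eq' (Finset.range (n + 1)) (j + 1),
        if_pos (Finset.mem_range.2 (by omega))]
    have h3 : star (S n) * E (n + 1) = star (S n) := by
      have := congrArg star h2
      rwa [star_mul, hEs] at this
    have h4 : star (S n) * S n = E n := sum_star_mul_sum v e hvv _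
    have h5 : E (n + 1) = E n + e n := Finset.sum_range_succ e n
    show star ((1 - E (n + 1)) + S n) * ((1 - E (n + 1)) + S n) = 1 - e n
    rw [star_add, star_sub, star_one, hEs]
    calc (1 - E (n + 1) + star (S n)) * (1 - E (n + 1) + S n)
        = (1 - E (n + 1)) * (1 - E (n + 1)) + (S n - E (n + 1) * S n) +
          (star (S n) - star (S n) * E (n + 1)) + star (S n) * S n := by noncomm_ring
      _ = (1 - E (n + 1)) + E n := by
          rw [h2, h3, h4, proj_compl (hEE _), sub_self, sub_self, add_zero, add_zero]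
      _ = 1 - e n := by rw [h5]; abel
  have hXlim : ∀ ξ, Tendsto (fun n => X n ξ) atTop (𝓝 ((1 - E' + S') ξ)) := by
    intro ξ
    have h2 := (hE' ξ).comp (tendsto_add_atTop_nat 1)
    exact (tendsto_const_nhds.sub h2).add (hS' ξ)
  obtain ⟨V, hV⟩ : ∃ V, V = 1 - E' + S' := ⟨_, rfl⟩
  rw [← hV] at hXlim
  have helim : ∀ ξ, Tendsto (fun n => e n ξ) atTop (𝓝 0) := by
    intro ξ
    have h2 := ((hE' ξ).comp (tendsto_add_atTop_nat 1)).sub (hE' ξ)
    rw [sub_self] at h2
    refine h2.congr fun n => ?_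
    have h5 : E (n + 1) = E n + e n := Finset.sum_range_succ e n
    show E (n + 1) ξ - E n ξ = e n ξ
    rw [h5]
    show E n ξ + e n ξ - E n ξ = e n ξ
    abel
  have hVnorm : ∀ ξ, ‖V ξ‖ = ‖ξ‖ := by
    intro ξ
    have h2 : Tendsto (fun n => ‖X n ξ‖ ^ 2) atTop (𝓝 (‖V ξ‖ ^ 2)) := (hXlim ξ).norm.pow 2
    have h3 : ∀ n, ‖X n ξ‖ ^ 2 = ‖ξ‖ ^ 2 - (⟪e n ξ, ξ⟫_ℂ).re := by
      intro n
      rw [norm_sq_apply, hXX n]
      show (⟪ξ - e n ξ, ξ⟫_ℂ).re = _
      rw [inner_sub_left, Complex.sub_re, inner_self_eq_norm_sq_to_K]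
      norm_cast
    simp_rw [h3] at h2
    have h4 : Tendsto (fun n => ‖ξ‖ ^ 2 - (⟪e n ξ, ξ⟫_ℂ).re) atTop (𝓝 (‖ξ‖ ^ 2 - 0)) := by
      apply Tendsto.sub tendsto_const_nhds
      have h5 : Tendsto (fun n => ⟪e n ξ, ξ⟫_ℂ) atTop (𝓝 ⟪(0 : H), ξ⟫_ℂ) :=
        (helim ξ).inner tendsto_const_nhds
      rw [inner_zero_left] at h5
      exact (Complex.continuous_re.tendsto _).comp h5
    rw [sub_zero] at h4
    have h5 := tendsto_nhds_unique h2 h4
    exact (pow_left_inj₀ (norm_nonneg _) (norm_nonneg _) two_ne_zero).1 h5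
  have hVV : star V * V = 1 := V.norm_map_iff_adjoint_comp_self.1 hVnorm
  have hVN : V ∈ N := by
    rw [mem_iff]
    intro t ht
    ext ξ
    have h2 : Tendsto (fun n => t (X n ξ)) atTop (𝓝 (t (V ξ))) :=
      (t.continuous.tendsto _).comp (hXlim ξ)
    have h3 := hXlim (t ξ)
    have h4 : (fun n => t (X n ξ)) = fun n => X n (t ξ) := by
      funext n
      exact congrArg (fun z : H →L[ℂ] H => z ξ) ((mem_iff N _).1 (hXN n) t ht)
    rw [h4] at h2
    exact tendsto_nhds_unique h2 h3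
  have hVV' := hfin V hVN hVV
  have heV : e 0 * V = 0 := by
    ext ξ
    have h2 : Tendsto (fun n => e 0 (X n ξ)) atTop (𝓝 (e 0 (V ξ))) :=
      ((e 0).continuous.tendsto _).comp (hXlim ξ)
    have h3 : ∀ n, e 0 * X n = 0 := by
      intro n
      have h4 : e 0 * E (n + 1) = e 0 := by
        show e 0 * (∑ i ∈ Finset.range (n + 1), e i) = e 0
        rw [Finset.mul_sum]
        have h5 : ∀ i ∈ Finset.range (n + 1), e 0 * e i = if 0 = i then e 0 else 0 := by
          intro i _
          have := hee 0 i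
          rwa [hes] at this
        rw [Finset.sum_congr rfl h5, Finset.sum_ite_eq (Finset.range (n + 1)) 0,
          if_pos (Finset.mem_range.2 (by omega))]
      have h5 : e 0 * S n = 0 := by
        show e 0 * (∑ i ∈ Finset.range n, v i) = 0
        rw [Finset.mul_sum]
        apply Finset.sum_eq_zero
        intro i _
        show e 0 * (w (i + 1) * star (w i)) = 0
        rw [← mul_assoc, hewj, if_neg (by omega), zero_mul]
      show e 0 * ((1 - E (n + 1)) + S n) = 0
      rw [mul_add, mul_sub, mul_one, h4, h5, sub_self, add_zero]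
    have h4 : (fun n => e 0 (X n ξ)) = fun _ => (0 : H) := by
      funext n
      exact congrArg (fun z : H →L[ℂ] H => z ξ) (h3 n)
    rw [h4] at h2
    exact tendsto_nhds_unique h2 tendsto_const_nhds
  have he0 : e 0 = 0 := by
    calc e 0 = e 0 * (V * star V) := by rw [hVV', mul_one]
      _ = e 0 * V * star V := (mul_assoc (e 0) V (star V)).symm
      _ = 0 := by rw [heV, zero_mul]
  have h2 : w 0 = 0 := by
    have := hewj 0 0
    rw [he0, if_pos rfl, zero_mul] at this
    exact this.symm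
  rw [← h1 0, h2, mul_zero]

/-- a nonzero element of a two-sided ideal gives a nonzero projection in the ideal -/
theorem exists_proj_ideal (N : VonNeumannAlgebra H) (I : Submodule ℂ (H →L[ℂ] H))
    (hl : ∀ a ∈ N, ∀ x ∈ I, a * x ∈ I) (hr : ∀ a ∈ N, ∀ x ∈ I, x * a ∈ I) {y : H →L[ℂ] H}
    (hy : y ∈ N) (hyI : y ∈ I) (hy0 : y ≠ 0) :
    ∃ p ∈ N, p ∈ I ∧ star p = p ∧ p * p = p ∧ p ≠ 0 := by
  obtain ⟨a, ha⟩ : ∃ a, a = star y * y := ⟨_, rfl⟩
  have haN : a ∈ N := ha ▸ mul_mem (star_mem hy) hy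
  have haI : a ∈ I := ha ▸ hl _ (star_mem hy) _ hyI
  have hs : IsSelfAdjoint a := ha ▸ IsSelfAdjoint.star_mul_self y
  have ha0 : 0 ≤ a := ha ▸ star_mul_self_nonneg y
  have hna : 0 < ‖a‖ := by
    rw [ha, CStarRing.norm_star_mul_self]
    have : 0 < ‖y‖ := norm_pos_iff.2 hy0
    positivity
  obtain ⟨t, ht⟩ : ∃ t, t = ‖a‖ / 2 := ⟨_, rfl⟩
  have ht0 : 0 < t := by rw [ht]; linarith
  have hc : Continuous fun s : ℝ => (max s t)⁻¹ :=
    (by fun_prop : Continuous fun s : ℝ => max s t).inv₀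
      fun s => (lt_of_lt_of_le ht0 (le_max_right s t)).ne'
  obtain ⟨b, hb⟩ : ∃ b, b = cfc (fun s : ℝ => max (s - t) 0) a := ⟨_, rfl⟩
  obtain ⟨k, hk⟩ : ∃ k, k = cfc (fun s : ℝ => (max s t)⁻¹) a := ⟨_, rfl⟩
  have hbN : b ∈ N := hb ▸ cfc_mem_vn N haN hs _
  have hkN : k ∈ N := hk ▸ cfc_mem_vn N haN hs _
  obtain ⟨p, hpN, hps, hpp, hpb, hp0⟩ := exists_rangeProj N hbN
  have h1 : (1 - k * a) * b = 0 := by
    have e1 : k * a = cfc (fun s : ℝ => (max s t)⁻¹ * s) a := by
      rw [cfc_mul (fun s : ℝ => (max s t)⁻¹) (fun s => s) a hc.continuousOn continuousOn_id,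
        cfc_id' ℝ a hs, hk]
    have e2 : k * a * b = b := by
      rw [e1, hb, ← cfc_mul (fun s : ℝ => (max s t)⁻¹ * s) (fun s : ℝ => max (s - t) 0) a
        (hc.mul continuous_id).continuousOn (by fun_prop)]
      congr 1
      funext s
      rcases le_total s t with h | h
      · rw [max_eq_right (by linarith : s - t ≤ 0), mul_zero]
      · rw [max_eq_left h, inv_mul_cancel₀ (by linarith : s ≠ 0), one_mul]
    rw [sub_mul, one_mul, e2, sub_self]
  have h2 := hp0 _ h1
  rw [sub_mul, one_mul, sub_eq_zero] at h2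
  refine ⟨p, hpN, ?_, hps, hpp, ?_⟩
  · rw [h2]
    exact hr _ hpN _ (hl _ hkN _ haI)
  · rintro rfl
    rw [zero_mul] at hpb
    have h3 : a ≤ t • (1 : H →L[ℂ] H) := by
      have h4 : cfc (fun s : ℝ => s) a ≤ cfc (fun s : ℝ => t + max (s - t) 0) a := by
        apply cfc_mono
        · intro s _
          have := le_max_left (s - t) 0
          linarith
        · exact continuousOn_id
        · exact (by fun_prop : Continuous fun s : ℝ => t + max (s - t) 0).continuousOn
      rw [cfc_id' ℝ a hs, cfc_const_add t (fun s : ℝ => max (s - t) 0) a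
        (by fun_prop) hs, ← hb, ← hpb, add_zero, Algebra.algebraMap_eq_smul_one] at h4
      exact h4
    have h5 := CStarAlgebra.norm_le_norm_of_nonneg_of_le ha0 h3
    rw [norm_smul, Real.norm_of_nonneg ht0.le] at h5
    have h6 : ‖(1 : H →L[ℂ] H)‖ ≤ 1 := ContinuousLinearMap.norm_id_le
    nlinarith

/-- A finite factor is (algebraically) simple. -/
theorem one_mem_ideal (N : VonNeumannAlgebra H) (hN : HasTrivialCenter N)
    (hfin : ∀ u ∈ N, star u * u = 1 → u * star u = 1) (I : Submodule ℂ (H →L[ℂ] H))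
    (hl : ∀ a ∈ N, ∀ x ∈ I, a * x ∈ I) (hr : ∀ a ∈ N, ∀ x ∈ I, x * a ∈ I) {y : H →L[ℂ] H}
    (hy : y ∈ N) (hyI : y ∈ I) (hy0 : y ≠ 0) : (1 : H →L[ℂ] H) ∈ I := by
  obtain ⟨p, hpN, hpI, hps, hpp, hp0⟩ := exists_proj_ideal N I hl hr hy hyI hy0
  by_contra h1
  let St := {F : H →L[ℂ] H // F ∈ N ∧ F ∈ I ∧ star F = F ∧ F * F = F}
  have step : ∀ F : St, ∃ w : H →L[ℂ] H, w ∈ N ∧ star w * w = p ∧ w * p = w ∧ F.1 * w = 0 := by
    rintro ⟨F, hFN, hFI, hFs, hFF⟩
    have hqs : star (1 - F) = 1 - F := by rw [star_sub, star_one, hFs]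
    obtain ⟨w, hwN, hpi, hqw, hwp, hor⟩ := compare N hN hpN (sub_mem (one_mem N) hFN) hps hpp hqs
      (proj_compl hFF)
    rcases hor with h | h
    · refine ⟨w, hwN, h, hwp, ?_⟩
      show F * w = 0
      rw [← hqw, ← mul_assoc, mul_sub, mul_one, hFF, sub_self, zero_mul]
    · exfalso
      apply h1
      have h2 : 1 - F ∈ I := by
        rw [← h, ← hwp, mul_assoc]
        exact hl _ hwN _ (hr _ (star_mem (mul_mem hwN hpN)) _ hpI)
      have h3 := add_mem h2 hFI
      rwa [sub_add_cancel] at h3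
  choose g hgN hgp hgw hgF using step
  have hnext : ∀ F : St, (F.1 + g F * star (g F)) ∈ N ∧ (F.1 + g F * star (g F)) ∈ I ∧
      star (F.1 + g F * star (g F)) = F.1 + g F * star (g F) ∧
      (F.1 + g F * star (g F)) * (F.1 + g F * star (g F)) = F.1 + g F * star (g F) := by
    intro F
    obtain ⟨hFN, hFI, hFs, hFF⟩ := F.2
    have h2 : star (g F) * F.1 = 0 := by
      have := congrArg star (hgF F)
      rwa [star_mul, hFs, star_zero] at this
    refine ⟨add_mem hFN (mul_mem (hgN F) (star_mem (hgN F))), add_mem hFI ?_, ?_, ?_⟩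
    · have : g F * star (g F) = g F * (p * star (g F)) := by
        rw [← mul_assoc, hgw]
      rw [this]
      exact hl _ (hgN F) _ (hr _ (star_mem (hgN F)) _ hpI)
    · rw [star_add, hFs, star_mul, star_star]
    · calc (F.1 + g F * star (g F)) * (F.1 + g F * star (g F))
          = F.1 * F.1 + (F.1 * g F) * star (g F) + g F * (star (g F) * F.1)
            + g F * (star (g F) * g F) * star (g F) := by noncomm_ring
        _ = F.1 + g F * star (g F) := by
          rw [hFF, hgF, h2, hgp, hgw, zero_mul, mul_zero, add_zero, add_zero]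
  let F : ℕ → St := fun n => Nat.rec (motive := fun _ => St)
    ⟨0, zero_mem N, zero_mem I, star_zero _, mul_zero _⟩ (fun _ F => ⟨_, hnext F⟩) n
  have hFsucc : ∀ n, (F (n + 1)).1 = (F n).1 + g (F n) * star (g (F n)) := fun n => rfl
  have hFw : ∀ i j, i < j → (F j).1 * g (F i) = g (F i) := by
    intro i j hij
    induction j with
    | zero => omega
    | succ j ih =>
      rcases Nat.lt_succ_iff_lt_or_eq.1 hij with h | h
      · have h2 := ih h
        have h3 : star (g (F j)) * g (F i) = 0 := by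
          rw [← h2, ← mul_assoc]
          have h4 : star (g (F j)) * (F j).1 = 0 := by
            have := congrArg star (hgF (F j))
            rwa [star_mul, (F j).2.2.2.1, star_zero] at this
          rw [h4, zero_mul]
        rw [hFsucc, add_mul, h2, mul_assoc, h3, mul_zero, add_zero]
      · subst h
        rw [hFsucc, add_mul, hgF, zero_add, mul_assoc, hgp, hgw]
  apply hp0
  refine shift_zero N hfin (fun n => g (F n)) (fun n => hgN _) p (fun n => hgp _)
    (fun n => hgw _) ?_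
  have key : ∀ i j, i < j → star (g (F i)) * g (F j) = 0 := by
    intro i j hij
    rw [← hFw i j hij, star_mul, (F j).2.2.2.1, mul_assoc, hgF, mul_zero]
  intro i j hij
  rcases lt_or_gt_of_ne hij with h | h
  · exact key i j h
  · have := congrArg star (key j i h)
    rwa [star_mul, star_star, star_zero] at this

end Pool.Agent.Helper877.SB
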