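import Mathlib
import Pool.Agent.Helper877.SB.Shift

set_option autoImplicit false

open scoped InnerProductSpace Topology ComplexOrder
open Filter

noncomputable section

namespace Pool.Agent.Helper877.SB

universe u

variable {H : Type u} [NormedAddCommGroup H] [InnerProductSpace ℂ H] [CompleteSpace H]

open Pool.Agent.Helper278 (HasTrivialCenter)

/-- extension from square zero elements to the whole factor -/
theorem lie_ext (N : VonNeumannAlgebra H) (hN : HasTrivialCenter N)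
    (K : Submodule ℂ (H →L[ℂ] H)) (hK : IsClosed (K : Set (H →L[ℂ] H))) (c : H →L[ℂ] H)
    (h : ∀ x ∈ N, x * x = 0 → c * x - x * c ∈ K) : ∀ a ∈ N, c * a - a * c ∈ K := by
  intro a ha
  let D : (H →L[ℂ] H) →L[ℂ] (H →L[ℂ] H) :=
    ContinuousLinearMap.mul ℂ (H →L[ℂ] H) c - (ContinuousLinearMap.mul ℂ (H →L[ℂ] H)).flip c
  have hD : ∀ x, D x = c * x - x * c := fun x => rfl
  have h1 : (LL N).topologicalClosure ≤ K.comap (D : (H →L[ℂ] H) →ₗ[ℂ] (H →L[ℂ] H)) := by
    apply Submodule.topologicalClosure_minimal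
    · unfold LL
      rw [Submodule.span_le]
      rintro x ⟨hx, hxx⟩
      exact h x hx hxx
    · exact hK.preimage D.continuous
  obtain ⟨γ, hγ⟩ := mem_closure_LL N hN ha
  have h2 : D (a - γ • (1 : H →L[ℂ] H)) ∈ K := h1 hγ
  rw [hD] at h2
  have h3 : c * (a - γ • (1 : H →L[ℂ] H)) - (a - γ • (1 : H →L[ℂ] H)) * c = c * a - a * c := by
    rw [mul_sub, sub_mul, mul_smul_comm, smul_mul_assoc, mul_one, one_mul]
    abel
  rwa [h3] at h2

/-- an element with `[k, [k, a]] = 0` for all `a` is scalar -/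
theorem central_of (N : VonNeumannAlgebra H) (hN : HasTrivialCenter N) {k : H →L[ℂ] H}
    (hk : k ∈ N) (h : ∀ a ∈ N, k * (k * a - a * k) = (k * a - a * k) * k) :
    ∃ c : ℂ, k = c • (1 : H →L[ℂ] H) := by
  have h1 : ∀ x ∈ N, ∀ y ∈ N, (k * x - x * k) * (k * y - y * k) = 0 := by
    intro x hx y hy
    have e0 : ∀ a ∈ N, k * (k * a - a * k) - (k * a - a * k) * k = 0 := fun a ha =>
      sub_eq_zero.2 (h a ha)
    have e1 : (2 : ℂ) • ((k * x - x * k) * (k * y - y * k)) =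
        (k * (k * (x * y) - (x * y) * k) - (k * (x * y) - (x * y) * k) * k)
        - (k * (k * x - x * k) - (k * x - x * k) * k) * y
        - x * (k * (k * y - y * k) - (k * y - y * k) * k) := by
      rw [two_smul]
      noncomm_ring
    rw [e0 _ (mul_mem hx hy), e0 x hx, e0 y hy, zero_mul, mul_zero, sub_self, sub_self] at e1
    exact (smul_eq_zero.1 e1).resolve_left two_ne_zero
  have h2 : ∀ x ∈ N, k * x - x * k = 0 := by
    intro x hx
    have hd : ∀ y ∈ N, k * y - y * k ∈ N := fun y hy => sub_mem (mul_mem hk hy) (mul_mem hy hk)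
    have h3 := Helper278.factor_corner N hN (k * x - x * k) (k * x - x * k) (hd x hx) (hd x hx) ?_
    · rcases h3 with h3 | h3 <;> exact h3
    · intro y hy
      have e1 : (k * x - x * k) * y * (k * x - x * k) =
          (k * x - x * k) * (k * (y * x) - (y * x) * k) -
            (k * x - x * k) * (k * y - y * k) * x := by noncomm_ring
      rw [e1, h1 x hx _ (mul_mem hy hx), h1 x hx y hy, zero_mul, sub_self]
  exact hN k hk fun x hx => sub_eq_zero.1 (h2 x hx)

/-- **Herstein's dichotomy** for a Lie ideal of a simple factor. -/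
theorem herstein (N : VonNeumannAlgebra H) (hN : HasTrivialCenter N)
    (hfin : ∀ u ∈ N, star u * u = 1 → u * star u = 1) (K : Submodule ℂ (H →L[ℂ] H))
    (hKN : ∀ k ∈ K, k ∈ N) (hL : ∀ k ∈ K, ∀ a ∈ N, k * a - a * k ∈ K) {u v : H →L[ℂ] H}
    (hu : u ∈ K) (hv : v ∈ K) (huv : u * v - v * u ≠ 0) :
    ∀ a ∈ N, ∀ b ∈ N, a * b - b * a ∈ K := by
  obtain ⟨W, hW⟩ : ∃ W, W = K ⊔ Submodule.span ℂ {x | ∃ k1 ∈ K, ∃ k2 ∈ K, x = k1 * k2} :=
    ⟨_, rfl⟩
  have hKW : ∀ k ∈ K, k ∈ W := fun k hk => hW ▸ Submodule.mem_sup_left hk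
  have hKKW : ∀ k1 ∈ K, ∀ k2 ∈ K, k1 * k2 ∈ W := fun k1 h1 k2 h2 =>
    hW ▸ Submodule.mem_sup_right (Submodule.subset_span ⟨k1, h1, k2, h2, rfl⟩)
  have hi : ∀ x ∈ W, ∀ a ∈ N, x * a - a * x ∈ K := by
    intro x hx a ha
    let D : (H →L[ℂ] H) →ₗ[ℂ] (H →L[ℂ] H) :=
      LinearMap.mulRight ℂ a - LinearMap.mulLeft ℂ a
    have hD : ∀ x, D x = x * a - a * x := fun x => rfl
    have h1 : W ≤ K.comap D := by
      rw [hW, sup_le_iff]
      constructor
      · intro k hk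
        exact hL k hk a ha
      · rw [Submodule.span_le]
        rintro _ ⟨k1, h1, k2, h2, rfl⟩
        show D (k1 * k2) ∈ K
        rw [hD]
        have e1 : k1 * k2 * a - a * (k1 * k2) = (k1 * (k2 * a) - (k2 * a) * k1)
            + (k2 * (a * k1) - (a * k1) * k2) := by noncomm_ring
        rw [e1]
        exact add_mem (hL k1 h1 _ (mul_mem (hKN _ h2) ha)) (hL k2 h2 _ (mul_mem ha (hKN _ h1)))
    exact h1 hx
  obtain ⟨c, hc⟩ : ∃ c, c = u * v - v * u := ⟨_, rfl⟩
  have hcN : c ∈ N := hc ▸ sub_mem (mul_mem (hKN _ hu) (hKN _ hv)) (mul_mem (hKN _ hv) (hKN _ hu))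
  have hii : ∀ r ∈ N, c * r ∈ W := by
    intro r hr
    have e1 : c * r = (u * (v * r) - (v * r) * u) - v * (u * r - r * u) := by
      rw [hc]; noncomm_ring
    rw [e1]
    exact sub_mem (hKW _ (hL u hu _ (mul_mem (hKN _ hv) hr))) (hKKW _ hv _ (hL u hu r hr))
  have hiii : ∀ r' ∈ N, ∀ r ∈ N, r' * c * r ∈ W := by
    intro r' hr' r hr
    have e1 : r' * c * r = c * (r * r') - ((c * r) * r' - r' * (c * r)) := by noncomm_ring
    rw [e1]
    exact sub_mem (hii _ (mul_mem hr hr')) (hKW _ (hi _ (hii r hr) r' hr'))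
  let I : Submodule ℂ (H →L[ℂ] H) :=
    Submodule.span ℂ {x | ∃ r' ∈ N, ∃ r ∈ N, x = r' * c * r}
  have hIW : I ≤ W := by
    rw [Submodule.span_le]
    rintro _ ⟨r', hr', r, hr, rfl⟩
    exact hiii r' hr' r hr
  have hIl : ∀ a ∈ N, ∀ x ∈ I, a * x ∈ I := by
    intro a ha x hx
    have h1 : I ≤ I.comap (LinearMap.mulLeft ℂ a) := by
      rw [Submodule.span_le]
      rintro _ ⟨r', hr', r, hr, rfl⟩
      show a * (r' * c * r) ∈ I
      have e1 : a * (r' * c * r) = (a * r') * c * r := by noncomm_ring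
      rw [e1]
      exact Submodule.subset_span ⟨_, mul_mem ha hr', _, hr, rfl⟩
    exact h1 hx
  have hIr : ∀ a ∈ N, ∀ x ∈ I, x * a ∈ I := by
    intro a ha x hx
    have h1 : I ≤ I.comap (LinearMap.mulRight ℂ a) := by
      rw [Submodule.span_le]
      rintro _ ⟨r', hr', r, hr, rfl⟩
      show (r' * c * r) * a ∈ I
      rw [mul_assoc]
      exact Submodule.subset_span ⟨_, hr', _, mul_mem hr ha, rfl⟩
    exact h1 hx
  have hcI : c ∈ I := Submodule.subset_span ⟨1, one_mem N, 1, one_mem N, by rw [one_mul, mul_one]⟩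
  have h1 := one_mem_ideal N hN hfin I hIl hIr hcN hcI (hc ▸ huv)
  intro a ha b hb
  have h2 := hIl a ha 1 h1
  rw [mul_one] at h2
  exact hi a (hIW h2) b hb

/-- Closed Lie ideal, plus an element commuting with the algebra modulo it. -/
theorem lie_main (N : VonNeumannAlgebra H) (hN : HasTrivialCenter N)
    (hfin : ∀ u ∈ N, star u * u = 1 → u * star u = 1) (K : Submodule ℂ (H →L[ℂ] H))
    (hKc : IsClosed (K : Set (H →L[ℂ] H)))
    (hKN : ∀ k ∈ K, k ∈ N) (hL : ∀ k ∈ K, ∀ x ∈ N, x * x = 0 → k * x - x * k ∈ K)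
    {c0 : H →L[ℂ] H} (hc0 : c0 ∈ N) (hc : ∀ x ∈ N, x * x = 0 → c0 * x - x * c0 ∈ K) :
    ∃ γ : ℂ, c0 - γ • (1 : H →L[ℂ] H) ∈ K := by
  have hL' : ∀ k ∈ K, ∀ a ∈ N, k * a - a * k ∈ K := fun k hk => lie_ext N hN K hKc k (hL k hk)
  have hc' : ∀ a ∈ N, c0 * a - a * c0 ∈ K := lie_ext N hN K hKc c0 hc
  by_cases hcomm : ∀ u ∈ K, ∀ v ∈ K, u * v - v * u = 0
  · have hsc : ∀ k ∈ K, ∃ c : ℂ, k = c • (1 : H →L[ℂ] H) := by
      intro k hk
      apply central_of N hN (hKN k hk)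
      intro a ha
      exact sub_eq_zero.1 (hcomm k hk _ (hL' k hk a ha))
    obtain ⟨γ, hγ⟩ := central_of N hN hc0 (by
      intro a ha
      obtain ⟨c, hc⟩ := hsc _ (hc' a ha)
      rw [hc, mul_smul_comm, smul_mul_assoc, mul_one, one_mul])
    exact ⟨γ, by rw [hγ, sub_self]; exact zero_mem K⟩
  · push Not at hcomm
    obtain ⟨u, hu, v, hv, huv⟩ := hcomm
    have hA := herstein N hN hfin K hKN hL' hu hv huv
    have h1 : (LL N).topologicalClosure ≤ K := by
      apply Submodule.topologicalClosure_minimal _ _ hKc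
      unfold LL
      rw [Submodule.span_le]
      rintro x ⟨hx, hxx⟩
      obtain ⟨p, hpN, hps, hpp, hpx, hp0⟩ := exists_rangeProj N hx
      have h2 := hA p hpN x hx
      rwa [hpx, hp0 x hxx, sub_zero] at h2
    obtain ⟨γ, hγ⟩ := mem_closure_LL N hN hc0
    exact ⟨γ, h1 hγ⟩

end Pool.Agent.Helper877.SB
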